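import Pool.Agent.H59.Per.Defs

/-! Modules SZ and JAC2 of MP_588c6d_co. -/

set_option autoImplicit false

open Finset

namespace Pool.Agent.H59.Per

/-- slice of a four variable coefficient array at `a` -/
noncomputable def slc {d : ℕ} (H : Fin (d + 1) → Fin (d + 1) → Fin (d + 1) → Fin (d + 1) → ℝ)
    (a : Pl) : Fin (d + 1) → Fin (d + 1) → ℝ :=
  fun k l => ∑ i, ∑ j, H i j k l * a.1 ^ (i : ℕ) * a.2 ^ (j : ℕ)

lemma ev4_eq {d : ℕ} (H : Fin (d + 1) → Fin (d + 1) → Fin (d + 1) → Fin (d + 1) → ℝ) (a y : Pl) :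
    ev4 H a y = ev2 (slc H a) y := by
  unfold ev4 ev2 slc
  have e1 : ∀ i : Fin (d + 1), ∑ j, ∑ k, ∑ l, H i j k l * a.1 ^ (i : ℕ) * a.2 ^ (j : ℕ) *
      y.1 ^ (k : ℕ) * y.2 ^ (l : ℕ) = ∑ k, ∑ l, ∑ j, H i j k l * a.1 ^ (i : ℕ) * a.2 ^ (j : ℕ) *
      y.1 ^ (k : ℕ) * y.2 ^ (l : ℕ) := by
    intro i
    rw [Finset.sum_comm]
    apply Finset.sum_congr rfl; intro k _
    rw [Finset.sum_comm]
  simp only [e1]
  rw [Finset.sum_comm]
  apply Finset.sum_congr rfl; intro k _
  rw [Finset.sum_comm]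
  apply Finset.sum_congr rfl; intro l _
  rw [Finset.sum_mul, Finset.sum_mul]
  apply Finset.sum_congr rfl; intro i _
  rw [Finset.sum_mul, Finset.sum_mul]

theorem sz : SZ := by
  classical
  intro d P H hH hcard
  -- a nonzero coefficient in `y`
  obtain ⟨k0, l0, hA⟩ : ∃ k0 l0, (fun i j => H i j k0 l0) ≠ 0 := by
    by_contra hcon
    push Not at hcon
    apply hH
    funext i j k l
    exact congrFun (congrFun (hcon k l) i) j
  by_contra hno
  push Not at hno
  have hA' := hno _ hA
  have hPpos : 0 < P.card := by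
    have := hA'
    omega
  -- bad points
  set B := P.filter (fun a => slc H a = 0) with hB
  have hBc : 16 * B.card < P.card := by
    refine lt_of_le_of_lt ?_ hA'
    apply Nat.mul_le_mul_left
    apply Finset.card_le_card
    intro a ha
    rw [hB, Finset.mem_filter] at ha
    rw [Finset.mem_filter]
    refine ⟨ha.1, ?_⟩
    have := congrFun (congrFun ha.2 k0) l0
    simpa [slc, ev2] using this
  have hcount : ((P ×ˢ P).filter (fun s => ev4 H s.1 s.2 = 0)).card =
      ∑ a ∈ P, (P.filter (fun y => ev4 H a y = 0)).card := by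
    rw [Finset.card_filter, Finset.sum_product]
    apply Finset.sum_congr rfl; intro a _
    rw [Finset.card_filter]
  have hbound : (∑ a ∈ P, 16 * (P.filter (fun y => ev4 H a y = 0)).card) ≤
      16 * (B.card * P.card) + P.card * P.card := by
    have h1 : ∀ a ∈ P, 16 * (P.filter (fun y => ev4 H a y = 0)).card ≤
        (if slc H a = 0 then 16 * P.card else 0) + P.card := by
      intro a ha
      by_cases h0 : slc H a = 0
      · rw [if_pos h0]
        have : (P.filter (fun y => ev4 H a y = 0)).card ≤ P.card := Finset.card_filter_le _ _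
        omega
      · rw [if_neg h0]
        have h2 := hno _ h0
        simp only [ev4_eq]
        omega
    refine (Finset.sum_le_sum h1).trans ?_
    rw [Finset.sum_add_distrib, Finset.sum_const, smul_eq_mul, ← Finset.sum_filter, Finset.sum_const,
      smul_eq_mul]
    apply Nat.add_le_add_right
    apply le_of_eq
    rw [hB]; ring
  rw [← Finset.mul_sum, ← hcount] at hbound
  have h3 : 16 * ((P ×ˢ P).filter (fun s => ev4 H s.1 s.2 = 0)).card ≤ 2 * (P.card * P.card) := by
    have : 16 * (B.card * P.card) ≤ P.card * P.card := by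
      calc 16 * (B.card * P.card) = (16 * B.card) * P.card := by ring
        _ ≤ P.card * P.card := Nat.mul_le_mul_right _ hBc.le
    omega
  have h4 : (16 : ℝ) * ((P ×ˢ P).filter (fun s => ev4 H s.1 s.2 = 0)).card ≤
      2 * ((P.card : ℝ) * P.card) := by exact_mod_cast h3
  have h5 : (0 : ℝ) < P.card := by exact_mod_cast hPpos
  nlinarith

/-! ### nonzero coefficient arrays give nonzero functions on open sets -/

/-- the polynomial with coefficient array `r` -/
noncomputable def mvp {N : ℕ} (r : (Fin 4 → Fin (N + 1)) → ℝ) : MvPolynomial (Fin 4) ℝ :=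
  ∑ k, MvPolynomial.monomial (Finsupp.equivFunOnFinite.symm (fun j => (k j : ℕ))) (r k)

lemma eval_mvp {N : ℕ} (r : (Fin 4 → Fin (N + 1)) → ℝ) (x : Fin 4 → ℝ) :
    MvPolynomial.eval x (mvp r) = ∑ k, r k * ∏ j, x j ^ (k j : ℕ) := by
  unfold mvp
  rw [map_sum]
  apply Finset.sum_congr rfl; intro k _
  rw [MvPolynomial.eval_monomial]
  congr 1
  rw [Finsupp.prod_fintype]
  · rfl
  · intro i; simp

lemma mvp_ne_zero {N : ℕ} (r : (Fin 4 → Fin (N + 1)) → ℝ) (hr : r ≠ 0) : mvp r ≠ 0 := by
  intro h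
  apply hr
  funext k
  have h1 := congrArg (MvPolynomial.coeff (Finsupp.equivFunOnFinite.symm (fun j => (k j : ℕ)))) h
  unfold mvp at h1
  rw [MvPolynomial.coeff_sum, Finset.sum_eq_single k] at h1
  · simpa using h1
  · intro b _ hb
    rw [MvPolynomial.coeff_monomial, if_neg]
    intro he
    apply hb
    funext j
    have := congrArg (fun f => f j) (Finsupp.equivFunOnFinite.symm.injective he)
    exact Fin.ext this
  · intro h; exact absurd (Finset.mem_univ k) h

lemma exists_ne_of_nhds {N : ℕ} (r : (Fin 4 → Fin (N + 1)) → ℝ) (hr : r ≠ 0) (x : Fin 4 → ℝ)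
    (V : Set (Fin 4 → ℝ)) (hV : V ∈ nhds x) : ∃ v ∈ V, ∑ k, r k * ∏ j, v j ^ (k j : ℕ) ≠ 0 := by
  by_contra hcon
  push Not at hcon
  obtain ⟨ε, hε, hball⟩ := Metric.mem_nhds_iff.1 hV
  apply mvp_ne_zero r hr
  apply MvPolynomial.funext_set (fun j => Metric.ball (x j) ε)
  · intro j
    rw [Real.ball_eq_Ioo]
    exact Set.Ioo_infinite (by linarith)
  · intro v hv
    rw [eval_mvp, map_zero]
    apply hcon
    apply hball
    rw [Metric.mem_ball, dist_pi_lt_iff hε]
    intro j
    exact hv j (Set.mem_univ j)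

lemma UU_open (X : Fin 4 → Pl) : IsOpen (UU X) := by
  have ha : Continuous aa := by unfold aa; fun_prop
  have hy : Continuous yy := by unfold yy; fun_prop
  have e : UU X = {u | aa u ≠ yy u} ∩ ⋂ j, ({u | aa u ≠ X j} ∩ {u | yy u ≠ X j}) := by
    ext u; simp [UU]
  rw [e]
  apply IsOpen.inter (isOpen_ne_fun ha hy)
  apply isOpen_iInter_of_finite
  intro j
  exact (isOpen_ne_fun ha continuous_const).inter (isOpen_ne_fun hy continuous_const)

theorem jac2_of (h1 : JAC1) : JAC2 := by
  intro X hX N r hr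
  obtain ⟨u, hu, L, hL, hsurj⟩ := h1 X hX
  have hmap := hL.map_nhds_eq_of_surj (LinearMap.range_eq_top.2 hsurj)
  have hU : UU X ∈ nhds u := (UU_open X).mem_nhds hu
  have hV : tau X '' UU X ∈ nhds (tau X u) := by
    rw [← hmap]; exact Filter.image_mem_map hU
  obtain ⟨v, ⟨w, hw, rfl⟩, hne⟩ := exists_ne_of_nhds r hr _ _ hV
  exact ⟨w, hw, hne⟩

end Pool.Agent.H59.Per
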