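import Mathlib

/-! Distinct perimeters (MP_588c6d_co): definitions and module statements.
Target: every set of `n` points of the plane spans at least `c n^(7/8) / (log n)^(3/4)` distinct
perimeters. -/

set_option autoImplicit false

open Finset

namespace Pool.Agent.H59.Per

/-- the plane (coordinates) -/
abbrev Pl : Type := ℝ × ℝ

/-- Euclidean distance -/
noncomputable def dd (p q : Pl) : ℝ := Real.sqrt ((p.1 - q.1) ^ 2 + (p.2 - q.2) ^ 2)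

/-- perimeter of a triple -/
noncomputable def pr (a y x : Pl) : ℝ := dd a y + dd a x + dd y x

/-- the set of perimeters of the triples of distinct points of `P` -/
noncomputable def perims (P : Finset Pl) : Finset ℝ :=
  ((P ×ˢ P ×ˢ P).filter (fun t => t.1 ≠ t.2.1 ∧ t.1 ≠ t.2.2 ∧ t.2.1 ≠ t.2.2)).image
    (fun t => pr t.1 t.2.1 t.2.2)

/-! ### CELL: `m` ellipses cut the plane into `O(m^2)` classes -/

/-- MODULE CELL -/
def CELL : Prop :=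
  ∃ C : ℕ, ∀ (m : ℕ) (A Y : Fin m → Pl) (σ : Fin m → ℝ) (P : Finset Pl),
    (∀ p ∈ P, ∀ i, dd p (A i) + dd p (Y i) ≠ σ i) →
    (P.image (fun p => ((fun i => decide (dd p (A i) + dd p (Y i) < σ i)) : Fin m → Bool))).card ≤
      C * (m ^ 2 + 1)

/-! ### CLOSE: four points of `P` that look alike for most pairs `(a, y)` -/

/-- number of elements of `T` between `x` and `y` -/
noncomputable def sepc (T : Finset ℝ) (x y : ℝ) : ℕ :=
  (T.filter (fun θ => (x ≤ θ ∧ θ < y) ∨ (y ≤ θ ∧ θ < x))).card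

/-- MODULE CLOSE (from CELL, by sampling) -/
def CLOSE : Prop :=
  ∃ C : ℝ, 0 < C ∧ ∃ n0 : ℕ, ∀ (P : Finset Pl) (T : Finset ℝ), n0 ≤ P.card →
    ∃ X : Fin 4 → Pl, Function.Injective X ∧ (∀ j, X j ∈ P) ∧
      ∀ j, ∑ a ∈ P, ∑ y ∈ P, (sepc T (pr a y (X 0)) (pr a y (X j)) : ℝ) ≤
        C * (Real.log P.card / Real.sqrt P.card) * (P.card : ℝ) ^ 2 * T.card

/-! ### polynomials of bounded degree in each variable -/

/-- bivariate polynomial with coefficient array `h` -/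
noncomputable def ev2 {d : ℕ} (h : Fin (d + 1) → Fin (d + 1) → ℝ) (p : Pl) : ℝ :=
  ∑ i, ∑ j, h i j * p.1 ^ (i : ℕ) * p.2 ^ (j : ℕ)

/-- polynomial in four variables with coefficient array `H` -/
noncomputable def ev4 {d : ℕ} (H : Fin (d + 1) → Fin (d + 1) → Fin (d + 1) → Fin (d + 1) → ℝ)
    (a y : Pl) : ℝ :=
  ∑ i, ∑ j, ∑ k, ∑ l, H i j k l * a.1 ^ (i : ℕ) * a.2 ^ (j : ℕ) * y.1 ^ (k : ℕ) * y.2 ^ (l : ℕ)

/-- MODULE RICH: if a positive proportion of `P` lies on an algebraic curve of bounded degree then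
`P` has linearly many perimeters. -/
def RICH : Prop :=
  ∀ d : ℕ, ∃ c : ℝ, 0 < c ∧ ∃ n0 : ℕ, ∀ (P : Finset Pl) (h : Fin (d + 1) → Fin (d + 1) → ℝ),
    h ≠ 0 → n0 ≤ P.card → P.card ≤ 16 * (P.filter (fun p => ev2 h p = 0)).card →
      c * P.card ≤ (perims P).card

/-- MODULE SZ -/
def SZ : Prop :=
  ∀ (d : ℕ) (P : Finset Pl) (H : Fin (d + 1) → Fin (d + 1) → Fin (d + 1) → Fin (d + 1) → ℝ),
    H ≠ 0 → (P.card : ℝ) ^ 2 ≤ 4 * ((P ×ˢ P).filter (fun s => ev4 H s.1 s.2 = 0)).card →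
    ∃ h : Fin (d + 1) → Fin (d + 1) → ℝ, h ≠ 0 ∧
      P.card ≤ 16 * (P.filter (fun p => ev2 h p = 0)).card

/-! ### FIB: the map `(a, y) ↦ (pr a y (X j))_j` is finite-to-one off a bounded degree set -/

/-- MODULE FIB -/
def FIB : Prop :=
  ∃ d M : ℕ, ∀ X : Fin 4 → Pl, Function.Injective X →
    ∃ H : Fin (d + 1) → Fin (d + 1) → Fin (d + 1) → Fin (d + 1) → ℝ, H ≠ 0 ∧
      ∀ (τ : Fin 4 → ℝ) (S : Finset (Pl × Pl)),
        (∀ s ∈ S, s.1 ≠ s.2 ∧ (∀ j, s.1 ≠ X j ∧ s.2 ≠ X j) ∧ ev4 H s.1 s.2 ≠ 0 ∧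
          ∀ j, pr s.1 s.2 (X j) = τ j) → S.card ≤ M

/-! #### the ingredients of FIB, in coordinates `u : Fin 4 → ℝ` -/

/-- the point `a` -/
def aa (u : Fin 4 → ℝ) : Pl := (u 0, u 1)
/-- the point `y` -/
def yy (u : Fin 4 → ℝ) : Pl := (u 2, u 3)

/-- the four perimeters -/
noncomputable def tau (X : Fin 4 → Pl) (u : Fin 4 → ℝ) (j : Fin 4) : ℝ := pr (aa u) (yy u) (X j)

/-- the domain of analyticity -/
def UU (X : Fin 4 → Pl) : Set (Fin 4 → ℝ) :=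
  {u | aa u ≠ yy u ∧ ∀ j, aa u ≠ X j ∧ yy u ≠ X j}

/-- a polynomial (coefficient array `r`) in the four perimeters -/
noncomputable def GG {N : ℕ} (X : Fin 4 → Pl) (r : (Fin 4 → Fin (N + 1)) → ℝ) (u : Fin 4 → ℝ) : ℝ :=
  ∑ k, r k * ∏ j, tau X u j ^ (k j : ℕ)

/-- MODULE JAC1: the Jacobian of `tau` is not identically zero: `tau X` has an invertible strict
derivative somewhere on `UU X`. -/
def JAC1 : Prop :=
  ∀ X : Fin 4 → Pl, Function.Injective X → ∃ u ∈ UU X, ∃ L : (Fin 4 → ℝ) →L[ℝ] (Fin 4 → ℝ),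
    HasStrictFDerivAt (tau X) L u ∧ Function.Surjective L

/-- MODULE JAC2 (from JAC1): the four perimeters are algebraically independent. -/
def JAC2 : Prop :=
  ∀ X : Fin 4 → Pl, Function.Injective X → ∀ (N : ℕ) (r : (Fin 4 → Fin (N + 1)) → ℝ), r ≠ 0 →
    ∃ u ∈ UU X, GG X r u ≠ 0

/-- MODULE DENS: by analyticity and connectedness of `UU X`, the set `{GG ≠ 0}` is dense in `UU X`. -/
def DENS : Prop :=
  ∀ (X : Fin 4 → Pl) (N : ℕ) (r : (Fin 4 → Fin (N + 1)) → ℝ), (∃ u ∈ UU X, GG X r u ≠ 0) →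
    ∀ u ∈ UU X, u ∈ closure {v | v ∈ UU X ∧ GG X r v ≠ 0}

/-- MODULE DIM: a coordinate is algebraic over the four perimeters, with uniformly bounded degree. -/
def DIM : Prop :=
  ∃ N : ℕ, ∀ (X : Fin 4 → Pl) (z : Fin 4), ∃ R : (Fin 4 → Fin (N + 1)) → Fin (N + 1) → ℝ, R ≠ 0 ∧
    ∀ u : Fin 4 → ℝ, ∑ k, ∑ l, R k l * (∏ j, tau X u j ^ (k j : ℕ)) * u z ^ (l : ℕ) = 0

/-- MODULE ELIM: a polynomial in the perimeters is algebraic over the coordinates. -/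
def ELIM : Prop :=
  ∀ N : ℕ, ∃ L D : ℕ, ∀ (X : Fin 4 → Pl) (r : (Fin 4 → Fin (N + 1)) → ℝ),
    ∃ c : Fin (D + 1) → (Fin 4 → Fin (L + 1)) → ℝ, c ≠ 0 ∧
      ∀ u : Fin 4 → ℝ, ∑ k, (∑ α, c k α * ∏ i, u i ^ (α i : ℕ)) * GG X r u ^ (k : ℕ) = 0

/-- MODULE FINAL -/
def MAIN : Prop :=
  ∃ c : ℝ, 0 < c ∧ ∀ P : Finset Pl, 3 ≤ P.card →
    c * (P.card : ℝ) ^ (7 / 8 : ℝ) / Real.log P.card ^ (3 / 4 : ℝ) ≤ (perims P).card

end Pool.Agent.H59.Per
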