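import Pool.Agent.H59.Per.Fib

/-! Module DENS of MP_588c6d_co: analyticity and connectedness. -/

set_option autoImplicit false

open Finset

namespace Pool.Agent.H59.Per

lemma analyticAt_sqrt_of_pos {E : Type} [NormedAddCommGroup E] [NormedSpace ℝ E] {f : E → ℝ} {x : E}
    (hf : AnalyticAt ℝ f x) (h : 0 < f x) : AnalyticAt ℝ (fun y => Real.sqrt (f y)) x := by
  have h0 : AnalyticAt ℝ (fun y => Real.log (f y)) x := (analyticAt_log h).comp hf
  have h2 : AnalyticAt ℝ (fun y => (1 / 2 : ℝ) * Real.log (f y)) x := analyticAt_const.mul h0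
  have h1 : AnalyticAt ℝ (fun y => Real.exp ((1 / 2 : ℝ) * Real.log (f y))) x := h2.rexp
  refine h1.congr ?_
  filter_upwards [hf.continuousAt.eventually (lt_mem_nhds h)] with y hy
  rw [Real.sqrt_eq_rpow, Real.rpow_def_of_pos hy]
  ring_nf

lemma sq_add_sq_pos {p q : Pl} (h : p ≠ q) : 0 < (p.1 - q.1) ^ 2 + (p.2 - q.2) ^ 2 := by
  by_contra hcon
  push Not at hcon
  have h1 : p.1 - q.1 = 0 := by nlinarith [sq_nonneg (p.1 - q.1), sq_nonneg (p.2 - q.2)]
  have h2 : p.2 - q.2 = 0 := by nlinarith [sq_nonneg (p.1 - q.1), sq_nonneg (p.2 - q.2)]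
  exact h (Prod.ext (by linarith) (by linarith))

lemma analyticAt_co (z : Fin 4) (u : Fin 4 → ℝ) : AnalyticAt ℝ (fun u : Fin 4 → ℝ => u z) u :=
  (ContinuousLinearMap.proj (R := ℝ) (φ := fun _ : Fin 4 => ℝ) z).analyticAt u

lemma analyticAt_tau (X : Fin 4 → Pl) (j : Fin 4) (u : Fin 4 → ℝ) (hu : u ∈ UU X) :
    AnalyticAt ℝ (fun u => tau X u j) u := by
  obtain ⟨h0, hj⟩ := hu
  have hc := analyticAt_co
  unfold tau pr dd
  refine ((analyticAt_sqrt_of_pos ?_ ?_).add (analyticAt_sqrt_of_pos ?_ ?_)).add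
    (analyticAt_sqrt_of_pos ?_ ?_)
  · simp only [aa, yy]
    exact (((hc 0 u).sub (hc 2 u)).pow 2).add (((hc 1 u).sub (hc 3 u)).pow 2)
  · exact sq_add_sq_pos h0
  · simp only [aa]
    exact (((hc 0 u).sub analyticAt_const).pow 2).add (((hc 1 u).sub analyticAt_const).pow 2)
  · exact sq_add_sq_pos (hj j).1
  · simp only [yy]
    exact (((hc 2 u).sub analyticAt_const).pow 2).add (((hc 3 u).sub analyticAt_const).pow 2)
  · exact sq_add_sq_pos (hj j).2

lemma analyticOnNhd_GG {N : ℕ} (X : Fin 4 → Pl) (r : (Fin 4 → Fin (N + 1)) → ℝ) :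
    AnalyticOnNhd ℝ (GG X r) (UU X) := by
  intro u hu
  unfold GG
  apply Finset.analyticAt_fun_sum
  intro k _
  apply analyticAt_const.mul
  apply Finset.analyticAt_fun_prod
  intro j _
  exact (analyticAt_tau X j u hu).pow _

lemma uv_aa_yy (u : Fin 4 → ℝ) : uv (aa u) (yy u) = u := by
  funext i; fin_cases i <;> simp [uv, aa, yy]

lemma joined_plane (S : Set Pl) (hS : S.Finite) (p q : Pl) (hp : p ∉ S) (hq : q ∉ S) :
    JoinedIn Sᶜ p q := by
  have h : IsPathConnected Sᶜ := by
    apply hS.countable.isPathConnected_compl_of_one_lt_rank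
    rw [rank_prod']
    simp
    norm_num
  exact h.joinedIn p hp q hq

lemma UU_preconnected (X : Fin 4 → Pl) : IsPreconnected (UU X) := by
  rcases (UU X).eq_empty_or_nonempty with h | ⟨u, hu⟩
  · rw [h]; exact isPreconnected_empty
  have hpc : IsPathConnected (UU X) := by
    refine ⟨u, hu, fun {v} hv => ?_⟩
    obtain ⟨z, hz⟩ : ∃ z : Pl, z ∉ (Set.range X ∪ {aa u, aa v} : Set Pl) := by
      have hfin : (Set.range X ∪ {aa u, aa v} : Set Pl).Finite :=
        (Set.finite_range X).union (Set.toFinite _)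
      exact (Set.Infinite.nonempty (Set.Finite.infinite_compl hfin))
    have hzX : ∀ j, z ≠ X j := fun j h => hz (Or.inl ⟨j, h.symm⟩)
    have hzu : z ≠ aa u := fun h => hz (Or.inr (Or.inl h))
    have hzv : z ≠ aa v := fun h => hz (Or.inr (Or.inr h))
    have cont1 : ∀ a : Pl, Continuous (fun p : Pl => uv a p) := by
      intro a; unfold uv
      refine continuous_pi fun i => ?_
      fin_cases i <;> simp <;> fun_prop
    have cont2 : Continuous (fun p : Pl => uv p z) := by
      unfold uv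
      refine continuous_pi fun i => ?_
      fin_cases i <;> simp <;> fun_prop
    have step1 : ∀ w ∈ UU X, z ≠ aa w → JoinedIn (UU X) (uv (aa w) (yy w)) (uv (aa w) z) := by
      intro w hw hzw
      obtain ⟨γ, hγ⟩ := joined_plane (Set.range X ∪ {aa w})
        ((Set.finite_range X).union (Set.finite_singleton _)) (yy w) z
        (by rintro (⟨j, hj⟩ | h)
            · exact (hw.2 j).2 hj.symm
            · exact hw.1 h.symm)
        (by rintro (⟨j, hj⟩ | h)
            · exact hzX j hj.symm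
            · exact hzw h)
      refine ⟨γ.map (cont1 (aa w)), fun t => ?_⟩
      have h := hγ t
      simp only [Path.map_coe, Function.comp]
      refine ⟨?_, fun j => ?_⟩
      · rw [aa_uv, yy_uv]; intro he; exact h (Or.inr he.symm)
      · rw [aa_uv, yy_uv]; exact ⟨(hw.2 j).1, fun he => h (Or.inl ⟨j, he.symm⟩)⟩
    have step2 : JoinedIn (UU X) (uv (aa u) z) (uv (aa v) z) := by
      obtain ⟨γ, hγ⟩ := joined_plane (Set.range X ∪ {z})
        ((Set.finite_range X).union (Set.finite_singleton _)) (aa u) (aa v)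
        (by rintro (⟨j, hj⟩ | h)
            · exact (hu.2 j).1 hj.symm
            · exact hzu h.symm)
        (by rintro (⟨j, hj⟩ | h)
            · exact (hv.2 j).1 hj.symm
            · exact hzv h.symm)
      refine ⟨γ.map cont2, fun t => ?_⟩
      have h := hγ t
      simp only [Path.map_coe, Function.comp]
      refine ⟨?_, fun j => ?_⟩
      · rw [aa_uv, yy_uv]; intro he; exact h (Or.inr he)
      · rw [aa_uv, yy_uv]; exact ⟨fun he => h (Or.inl ⟨j, he.symm⟩), hzX j⟩
    have h1 := step1 u hu hzu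
    have h3 := (step1 v hv hzv).symm
    rw [uv_aa_yy] at h1 h3
    exact (h1.trans step2).trans h3
  exact hpc.isConnected.isPreconnected

theorem dens : DENS := by
  intro X N r hne u hu
  rw [mem_closure_iff_nhds]
  intro V hV
  by_contra hcon
  rw [Set.not_nonempty_iff_eq_empty] at hcon
  have hev : GG X r =ᶠ[nhds u] 0 := by
    filter_upwards [hV, (UU_open X).mem_nhds hu] with v hv hvU
    by_contra h
    have : v ∈ V ∩ {v | v ∈ UU X ∧ GG X r v ≠ 0} := ⟨hv, hvU, h⟩
    rw [hcon] at this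
    exact this
  have := (analyticOnNhd_GG X r).eqOn_zero_of_preconnected_of_eventuallyEq_zero
    (UU_preconnected X) hu hev
  obtain ⟨w, hw, hw0⟩ := hne
  exact hw0 (this hw)

end Pool.Agent.H59.Per
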