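import Pool.Agent.H59.Per.Defs

/-! Modules DIM and ELIM of MP_588c6d_co: dimension counting. -/

set_option autoImplicit false

open Finset

namespace Pool.Agent.H59.Per

/-- the nine radicals: `|a-y|`, `|a-X j|`, `|y - X j|` -/
noncomputable def rho (X : Fin 4 → Pl) (i : Fin 9) (u : Fin 4 → ℝ) : ℝ :=
  match i with
  | 0 => dd (aa u) (yy u)
  | 1 => dd (aa u) (X 0)
  | 2 => dd (aa u) (X 1)
  | 3 => dd (aa u) (X 2)
  | 4 => dd (aa u) (X 3)
  | 5 => dd (yy u) (X 0)
  | 6 => dd (yy u) (X 1)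
  | 7 => dd (yy u) (X 2)
  | 8 => dd (yy u) (X 3)

/-- generators -/
noncomputable def gen (X : Fin 4 → Pl) (α : Fin 4 → ℕ) (S : Finset (Fin 9)) : (Fin 4 → ℝ) → ℝ :=
  fun u => (∏ i, u i ^ α i) * ∏ i ∈ S, rho X i u

/-- the span of the generators with exponents at most `L` -/
noncomputable def WW (X : Fin 4 → Pl) (L : ℕ) : Submodule ℝ ((Fin 4 → ℝ) → ℝ) :=
  Submodule.span ℝ (Set.range (fun p : (Fin 4 → Fin (L + 1)) × Finset (Fin 9) =>
    gen X (fun i => (p.1 i : ℕ)) p.2))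

lemma gen_mem (X : Fin 4 → Pl) (L : ℕ) (α : Fin 4 → ℕ) (h : ∀ i, α i ≤ L) (S : Finset (Fin 9)) :
    gen X α S ∈ WW X L := by
  apply Submodule.subset_span
  exact ⟨(fun i => ⟨α i, Nat.lt_succ_of_le (h i)⟩, S), rfl⟩

lemma finrank_WW (X : Fin 4 → Pl) (L : ℕ) : Module.finrank ℝ (WW X L) ≤ (L + 1) ^ 4 * 512 := by
  refine (finrank_range_le_card _).trans (le_of_eq ?_)
  simp [Fintype.card_prod]

instance (X : Fin 4 → Pl) (L : ℕ) : Module.Finite ℝ (WW X L) := by
  unfold WW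
  exact Module.Finite.span_of_finite ℝ (Set.finite_range _)

lemma WW_mono (X : Fin 4 → Pl) {L L' : ℕ} (h : L ≤ L') : WW X L ≤ WW X L' := by
  unfold WW
  rw [Submodule.span_le]
  rintro _ ⟨p, rfl⟩
  exact gen_mem X L' _ (fun i => (Nat.lt_succ_iff.1 (p.1 i).2).trans h) p.2

/-- multiplication by a fixed function, on generators, extends to the span. -/
lemma mul_mem_of_gen (X : Fin 4 → Pl) (g : (Fin 4 → ℝ) → ℝ) (L L' : ℕ)
    (h : ∀ (α : Fin 4 → ℕ) (S : Finset (Fin 9)), (∀ i, α i ≤ L) → g * gen X α S ∈ WW X L')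
    (f : (Fin 4 → ℝ) → ℝ) (hf : f ∈ WW X L) : g * f ∈ WW X L' := by
  unfold WW at hf
  induction hf using Submodule.span_induction with
  | mem x hx =>
    obtain ⟨p, rfl⟩ := hx
    exact h _ _ (fun i => Nat.lt_succ_iff.1 (p.1 i).2)
  | zero => rw [mul_zero]; exact Submodule.zero_mem _
  | add x y _ _ hx hy => rw [mul_add]; exact Submodule.add_mem _ hx hy
  | smul c x _ hx => rw [mul_smul_comm]; exact Submodule.smul_mem _ _ hx

/-- coordinate function -/
def co (z : Fin 4) : (Fin 4 → ℝ) → ℝ := fun u => u z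

lemma co_mul_mem (X : Fin 4 → Pl) (z : Fin 4) (L : ℕ) (f : (Fin 4 → ℝ) → ℝ) (hf : f ∈ WW X L) :
    co z * f ∈ WW X (L + 1) := by
  refine mul_mem_of_gen X _ L (L + 1) ?_ f hf
  intro α S h
  have e : co z * gen X α S = gen X (Function.update α z (α z + 1)) S := by
    funext u
    simp only [Pi.mul_apply, co, gen, ← mul_assoc]
    congr 1
    rw [← Finset.mul_prod_erase Finset.univ (fun i => u i ^ α i) (Finset.mem_univ z),
      ← Finset.mul_prod_erase Finset.univ (fun i => u i ^ (Function.update α z (α z + 1)) i)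
        (Finset.mem_univ z), Function.update_self, pow_succ, ← mul_assoc]
    have : ∏ x ∈ Finset.univ.erase z, u x ^ Function.update α z (α z + 1) x =
        ∏ x ∈ Finset.univ.erase z, u x ^ α x := by
      apply Finset.prod_congr rfl
      intro x hx
      rw [Function.update_of_ne (Finset.ne_of_mem_erase hx)]
    rw [this]; ring
  rw [e]
  apply gen_mem
  intro i
  by_cases hi : i = z
  · subst hi; rw [Function.update_self]; have := h i; omega
  · rw [Function.update_of_ne hi]; have := h i; omega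

/-- squares of differences `(co z - c)^2 * f` -/
lemma sqc_mul_mem (X : Fin 4 → Pl) (z : Fin 4) (c : ℝ) (L : ℕ) (f : (Fin 4 → ℝ) → ℝ)
    (hf : f ∈ WW X L) : (fun u => (u z - c) ^ 2 * f u) ∈ WW X (L + 2) := by
  have h1 := co_mul_mem X z L f hf
  have h2 := co_mul_mem X z (L + 1) _ h1
  have e : (fun u : Fin 4 → ℝ => (u z - c) ^ 2 * f u) =
      co z * (co z * f) + ((-2 * c) • (co z * f) + (c ^ 2) • f) := by
    funext u
    simp only [Pi.add_apply, Pi.mul_apply, Pi.smul_apply, co, smul_eq_mul]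
    ring
  rw [e]
  refine Submodule.add_mem _ h2 (Submodule.add_mem _ (Submodule.smul_mem _ _ ?_)
    (Submodule.smul_mem _ _ ?_))
  · exact WW_mono X (by omega) h1
  · exact WW_mono X (by omega) hf

lemma sqd_mul_mem (X : Fin 4 → Pl) (z w : Fin 4) (L : ℕ) (f : (Fin 4 → ℝ) → ℝ)
    (hf : f ∈ WW X L) : (fun u => (u z - u w) ^ 2 * f u) ∈ WW X (L + 2) := by
  have hz := co_mul_mem X z L f hf
  have hw := co_mul_mem X w L f hf
  have hzz := co_mul_mem X z (L + 1) _ hz
  have hzw := co_mul_mem X z (L + 1) _ hw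
  have hww := co_mul_mem X w (L + 1) _ hw
  have e : (fun u : Fin 4 → ℝ => (u z - u w) ^ 2 * f u) =
      co z * (co z * f) + ((-2 : ℝ) • (co z * (co w * f)) + co w * (co w * f)) := by
    funext u
    simp only [Pi.add_apply, Pi.mul_apply, Pi.smul_apply, co, smul_eq_mul]
    ring
  rw [e]
  exact Submodule.add_mem _ hzz (Submodule.add_mem _ (Submodule.smul_mem _ _ hzw) hww)

lemma dd_sq (p q : Pl) : dd p q ^ 2 = (p.1 - q.1) ^ 2 + (p.2 - q.2) ^ 2 := by
  unfold dd
  rw [Real.sq_sqrt (by positivity)]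

/-- the square of a radical times `f` -/
lemma rho_sq_mul_mem (X : Fin 4 → Pl) (i : Fin 9) (L : ℕ) (f : (Fin 4 → ℝ) → ℝ)
    (hf : f ∈ WW X L) : (fun u => rho X i u ^ 2 * f u) ∈ WW X (L + 2) := by
  have key : ∀ (z w : Fin 4) (p : Pl), (fun u : Fin 4 → ℝ => ((u z - p.1) ^ 2 + (u w - p.2) ^ 2) * f u) ∈
      WW X (L + 2) := by
    intro z w p
    have e : (fun u : Fin 4 → ℝ => ((u z - p.1) ^ 2 + (u w - p.2) ^ 2) * f u) =
        (fun u => (u z - p.1) ^ 2 * f u) + (fun u => (u w - p.2) ^ 2 * f u) := by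
      funext u; simp only [Pi.add_apply]; ring
    rw [e]
    exact Submodule.add_mem _ (sqc_mul_mem X z p.1 L f hf) (sqc_mul_mem X w p.2 L f hf)
  have key2 : (fun u : Fin 4 → ℝ => ((u 0 - u 2) ^ 2 + (u 1 - u 3) ^ 2) * f u) ∈ WW X (L + 2) := by
    have e : (fun u : Fin 4 → ℝ => ((u 0 - u 2) ^ 2 + (u 1 - u 3) ^ 2) * f u) =
        (fun u => (u 0 - u 2) ^ 2 * f u) + (fun u => (u 1 - u 3) ^ 2 * f u) := by
      funext u; simp only [Pi.add_apply]; ring
    rw [e]
    exact Submodule.add_mem _ (sqd_mul_mem X 0 2 L f hf) (sqd_mul_mem X 1 3 L f hf)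
  fin_cases i <;> simp only [rho, dd_sq, aa, yy]
  · exact key2
  · exact key 0 1 (X 0)
  · exact key 0 1 (X 1)
  · exact key 0 1 (X 2)
  · exact key 0 1 (X 3)
  · exact key 2 3 (X 0)
  · exact key 2 3 (X 1)
  · exact key 2 3 (X 2)
  · exact key 2 3 (X 3)

lemma rho_mul_mem (X : Fin 4 → Pl) (i : Fin 9) (L : ℕ) (f : (Fin 4 → ℝ) → ℝ)
    (hf : f ∈ WW X L) : rho X i * f ∈ WW X (L + 2) := by
  refine mul_mem_of_gen X _ L (L + 2) ?_ f hf
  intro α S h
  by_cases hi : i ∈ S
  · have e : rho X i * gen X α S = fun u => rho X i u ^ 2 * gen X α (S.erase i) u := by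
      funext u
      simp only [Pi.mul_apply, gen]
      rw [← Finset.mul_prod_erase S (fun i => rho X i u) hi]
      ring
    rw [e]
    exact rho_sq_mul_mem X i L _ (gen_mem X L α h _)
  · have e : rho X i * gen X α S = gen X α (insert i S) := by
      funext u
      simp only [Pi.mul_apply, gen]
      rw [Finset.prod_insert hi]
      ring
    rw [e]
    exact gen_mem X _ α (fun j => (h j).trans (by omega)) _

/-- the perimeter as a function -/
noncomputable def tauf (X : Fin 4 → Pl) (j : Fin 4) : (Fin 4 → ℝ) → ℝ := fun u => tau X u j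

lemma tau_mul_mem (X : Fin 4 → Pl) (j : Fin 4) (L : ℕ) (f : (Fin 4 → ℝ) → ℝ)
    (hf : f ∈ WW X L) : tauf X j * f ∈ WW X (L + 2) := by
  have h0 := rho_mul_mem X 0 L f hf
  have key : ∀ i k : Fin 9, (tauf X j = rho X 0 + rho X i + rho X k) → tauf X j * f ∈ WW X (L + 2) := by
    intro i k e
    rw [e, add_mul, add_mul]
    exact Submodule.add_mem _ (Submodule.add_mem _ h0 (rho_mul_mem X i L f hf))
      (rho_mul_mem X k L f hf)
  fin_cases j
  · exact key 1 5 (by funext u; simp [tauf, tau, pr, rho])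
  · exact key 2 6 (by funext u; simp [tauf, tau, pr, rho])
  · exact key 3 7 (by funext u; simp [tauf, tau, pr, rho])
  · exact key 4 8 (by funext u; simp [tauf, tau, pr, rho])

lemma pow_mul_mem (X : Fin 4 → Pl) (g : (Fin 4 → ℝ) → ℝ) (s : ℕ)
    (hg : ∀ (L : ℕ) (f : (Fin 4 → ℝ) → ℝ), f ∈ WW X L → g * f ∈ WW X (L + s))
    (k : ℕ) : ∀ (L : ℕ) (f : (Fin 4 → ℝ) → ℝ), f ∈ WW X L → g ^ k * f ∈ WW X (L + s * k) := by
  induction k with
  | zero => intro L f hf; simpa using hf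
  | succ k ih =>
    intro L f hf
    have := hg _ _ (ih L f hf)
    have e : g ^ (k + 1) * f = g * (g ^ k * f) := by ring
    rw [e]
    have e2 : L + s * (k + 1) = L + s * k + s := by ring
    rw [e2]; exact this

lemma one_mem (X : Fin 4 → Pl) : (1 : (Fin 4 → ℝ) → ℝ) ∈ WW X 0 := by
  have : (1 : (Fin 4 → ℝ) → ℝ) = gen X (fun _ => 0) ∅ := by
    funext u; simp [gen]
  rw [this]; exact gen_mem X 0 _ (fun _ => le_rfl) _

/-- monomials in the perimeters -/
noncomputable def tmon (X : Fin 4 → Pl) (k : Fin 4 → ℕ) : (Fin 4 → ℝ) → ℝ :=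
  fun u => ∏ j, tau X u j ^ k j

lemma tmon_mul_mem (X : Fin 4 → Pl) (k : Fin 4 → ℕ) (N : ℕ) (hk : ∀ j, k j ≤ N) (L : ℕ)
    (f : (Fin 4 → ℝ) → ℝ) (hf : f ∈ WW X L) : tmon X k * f ∈ WW X (L + 8 * N) := by
  have e : tmon X k * f = tauf X 0 ^ k 0 * (tauf X 1 ^ k 1 * (tauf X 2 ^ k 2 * (tauf X 3 ^ k 3 * f))) := by
    funext u
    simp only [tmon, Pi.mul_apply, Pi.pow_apply, tauf, Fin.prod_univ_four]
    ring
  rw [e]
  have h := fun j => pow_mul_mem X (tauf X j) 2 (fun L f hf => tau_mul_mem X j L f hf)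
  have h3 := h 3 (k 3) L f hf
  have h2 := h 2 (k 2) _ _ h3
  have h1 := h 1 (k 1) _ _ h2
  have h0 := h 0 (k 0) _ _ h1
  refine WW_mono X ?_ h0
  have := hk 0; have := hk 1; have := hk 2; have := hk 3
  omega

/-- linear dependence by counting -/
lemma exists_rel (X : Fin 4 → Pl) (L : ℕ) {ι : Type*} [Fintype ι] (v : ι → (Fin 4 → ℝ) → ℝ)
    (hv : ∀ i, v i ∈ WW X L) (hc : (L + 1) ^ 4 * 512 < Fintype.card ι) :
    ∃ g : ι → ℝ, g ≠ 0 ∧ ∀ u, ∑ i, g i * v i u = 0 := by
  have hnot : ¬ LinearIndependent ℝ (fun i => (⟨v i, hv i⟩ : WW X L)) := by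
    intro hli
    have h1 := hli.fintype_card_le_finrank
    have h2 := finrank_WW X L
    omega
  rw [Fintype.not_linearIndependent_iff] at hnot
  obtain ⟨g, hg, i, hi⟩ := hnot
  refine ⟨g, fun h => hi (by rw [h]; rfl), ?_⟩
  intro u
  have h := congrArg (fun w : WW X L => (w : (Fin 4 → ℝ) → ℝ) u) hg
  simpa [Finset.sum_apply] using h

theorem dim : DIM := by
  refine ⟨3359232, fun X z => ?_⟩
  set N := 3359232 with hN
  obtain ⟨g, hg, hu⟩ := exists_rel X (9 * N) (ι := (Fin 4 → Fin (N + 1)) × Fin (N + 1))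
    (fun p => tmon X (fun j => (p.1 j : ℕ)) * co z ^ (p.2 : ℕ)) (by
      intro p
      have h1 : co z ^ (p.2 : ℕ) * 1 ∈ WW X (0 + 1 * (p.2 : ℕ)) :=
        pow_mul_mem X (co z) 1 (fun L f hf => co_mul_mem X z L f hf) _ 0 1 (one_mem X)
      rw [mul_one] at h1
      have h2 := tmon_mul_mem X (fun j => (p.1 j : ℕ)) N (fun j => Nat.lt_succ_iff.1 (p.1 j).2) _ _ h1
      refine WW_mono X ?_ h2
      have := p.2.2
      omega) (by
      simp only [Fintype.card_prod, Fintype.card_pi, Finset.prod_const, Finset.card_univ,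
        Fintype.card_fin]
      have h1 : (9 * N + 1) ^ 4 ≤ (9 * (N + 1)) ^ 4 := Nat.pow_le_pow_left (by omega) 4
      have h2 : (9 * (N + 1)) ^ 4 * 512 < (N + 1) ^ 4 * (N + 1) := by
        rw [mul_pow]
        have h3 : 9 ^ 4 * 512 < N + 1 := by rw [hN]; norm_num
        have h4 : 0 < (N + 1) ^ 4 := by positivity
        calc 9 ^ 4 * (N + 1) ^ 4 * 512 = (N + 1) ^ 4 * (9 ^ 4 * 512) := by ring
          _ < (N + 1) ^ 4 * (N + 1) := Nat.mul_lt_mul_of_pos_left h3 h4
      exact lt_of_le_of_lt (Nat.mul_le_mul_right _ h1) h2)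
  refine ⟨fun k l => g (k, l), ?_, ?_⟩
  · intro h
    apply hg
    funext p
    exact congrFun (congrFun h p.1) p.2
  · intro u
    have h := hu u
    rw [Fintype.sum_prod_type] at h
    rw [← h]
    apply Finset.sum_congr rfl; intro k _
    apply Finset.sum_congr rfl; intro l _
    simp only [Pi.mul_apply, Pi.pow_apply, tmon, co]
    ring

theorem elim : ELIM := by
  intro N
  set D := 8192 with hD
  refine ⟨8 * N * D, D, fun X r => ?_⟩
  set L := 8 * N * D with hL
  have hG : ∀ (L : ℕ) (f : (Fin 4 → ℝ) → ℝ), f ∈ WW X L → GG X r * f ∈ WW X (L + 8 * N) := by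
    intro L f hf
    have e : GG X r * f = ∑ k, r k • (tmon X (fun j => (k j : ℕ)) * f) := by
      funext u
      simp only [Pi.mul_apply, GG, Finset.sum_apply, Pi.smul_apply, smul_eq_mul, tmon,
        Finset.sum_mul]
      apply Finset.sum_congr rfl; intro k _; ring
    rw [e]
    apply Submodule.sum_mem
    intro k _
    apply Submodule.smul_mem
    exact tmon_mul_mem X _ N (fun j => Nat.lt_succ_iff.1 (k j).2) L f hf
  obtain ⟨g, hg, hu⟩ := exists_rel X (2 * L) (ι := Fin (D + 1) × (Fin 4 → Fin (L + 1)))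
    (fun p => GG X r ^ (p.1 : ℕ) * gen X (fun j => (p.2 j : ℕ)) ∅) (by
      intro p
      have h1 := gen_mem X L (fun j => (p.2 j : ℕ)) (fun j => Nat.lt_succ_iff.1 (p.2 j).2) ∅
      have h2 := pow_mul_mem X (GG X r) (8 * N) hG (p.1 : ℕ) _ _ h1
      refine WW_mono X ?_ h2
      have h3 : 8 * N * (p.1 : ℕ) ≤ 8 * N * D := Nat.mul_le_mul_left _ (Nat.lt_succ_iff.1 p.1.2)
      omega) (by
      simp only [Fintype.card_prod, Fintype.card_pi, Finset.prod_const, Finset.card_univ,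
        Fintype.card_fin]
      have h1 : (2 * L + 1) ^ 4 ≤ (2 * (L + 1)) ^ 4 := Nat.pow_le_pow_left (by omega) 4
      have h2 : (2 * (L + 1)) ^ 4 * 512 < (D + 1) * (L + 1) ^ 4 := by
        rw [mul_pow]
        have h3 : 2 ^ 4 * 512 < D + 1 := by rw [hD]; norm_num
        have h4 : 0 < (L + 1) ^ 4 := by positivity
        calc 2 ^ 4 * (L + 1) ^ 4 * 512 = (2 ^ 4 * 512) * (L + 1) ^ 4 := by ring
          _ < (D + 1) * (L + 1) ^ 4 := Nat.mul_lt_mul_of_pos_right h3 h4
      exact lt_of_le_of_lt (Nat.mul_le_mul_right _ h1) h2)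
  refine ⟨fun k α => g (k, α), ?_, ?_⟩
  · intro h
    apply hg
    funext p
    exact congrFun (congrFun h p.1) p.2
  · intro u
    have h := hu u
    rw [Fintype.sum_prod_type] at h
    rw [← h]
    apply Finset.sum_congr rfl; intro k _
    rw [Finset.sum_mul]
    apply Finset.sum_congr rfl; intro α _
    simp only [Pi.mul_apply, Pi.pow_apply, gen, Finset.prod_empty]
    ring

end Pool.Agent.H59.Per
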