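import Pool.Agent.H59.Per.Alg
import Pool.Agent.H59.Per.Dim

/-! Module FIB of MP_588c6d_co. -/

set_option autoImplicit false

open Finset

namespace Pool.Agent.H59.Per

/-- coordinates of a pair of points -/
def uv (a y : Pl) : Fin 4 → ℝ := ![a.1, a.2, y.1, y.2]

lemma aa_uv (a y : Pl) : aa (uv a y) = a := by simp [aa, uv]
lemma yy_uv (a y : Pl) : yy (uv a y) = y := by simp [yy, uv]

/-- index equivalence -/
def boxEquiv (α : Type) : (α × α × α × α) ≃ (Fin 4 → α) where
  toFun p := ![p.1, p.2.1, p.2.2.1, p.2.2.2]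
  invFun k := (k 0, k 1, k 2, k 3)
  left_inv p := by simp
  right_inv k := by
    funext i; fin_cases i <;> rfl

/-- polynomial of total degree at most `d` as a coefficient array -/
lemma exists_array (d : ℕ) (p : MvPolynomial (Fin 4) ℝ) (hd : p.totalDegree ≤ d) (hp : p ≠ 0) :
    ∃ H : Fin (d + 1) → Fin (d + 1) → Fin (d + 1) → Fin (d + 1) → ℝ, H ≠ 0 ∧
      ∀ a y : Pl, ev4 H a y = MvPolynomial.eval (uv a y) p := by
  classical
  set F : (Fin 4 → Fin (d + 1)) → (Fin 4 →₀ ℕ) := fun k =>
    Finsupp.equivFunOnFinite.symm (fun j => (k j : ℕ)) with hF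
  have hFinj : Function.Injective F := by
    intro k k' h
    funext j
    have := congrArg (fun f => f j) (Finsupp.equivFunOnFinite.symm.injective h)
    exact Fin.ext this
  have hev : ∀ x : Fin 4 → ℝ, MvPolynomial.eval x p = ∑ k, p.coeff (F k) * ∏ j, x j ^ (k j : ℕ) := by
    intro x
    rw [MvPolynomial.eval_eq']
    have h1 : ∑ k, p.coeff (F k) * ∏ j, x j ^ (k j : ℕ) =
        ∑ m ∈ Finset.univ.image F, p.coeff m * ∏ j, x j ^ (m j) := by
      rw [Finset.sum_image (fun a _ b _ h => hFinj h)]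
      rfl
    rw [h1]
    apply Finset.sum_subset
    · intro m hm
      rw [Finset.mem_image]
      have hle : ∀ j, m j ≤ d := by
        intro j
        have h2 := MvPolynomial.le_totalDegree hm
        have h3 : m j ≤ m.sum fun _ e => e := by
          by_cases h0 : m j = 0
          · rw [h0]; exact Nat.zero_le _
          · exact Finset.single_le_sum (f := fun i => m i) (fun _ _ => Nat.zero_le _)
              (Finsupp.mem_support_iff.2 h0)
        omega
      refine ⟨fun j => ⟨m j, Nat.lt_succ_of_le (hle j)⟩, Finset.mem_univ _, ?_⟩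
      ext j; rfl
    · intro m _ hm
      rw [MvPolynomial.notMem_support_iff.1 hm, zero_mul]
  refine ⟨fun i j k l => p.coeff (F ![i, j, k, l]), ?_, ?_⟩
  · intro h0
    apply hp
    apply MvPolynomial.funext
    intro x
    rw [hev x, map_zero]
    apply Finset.sum_eq_zero
    intro k _
    have h1 := congrFun (congrFun (congrFun (congrFun h0 (k 0)) (k 1)) (k 2)) (k 3)
    have h2 : (![k 0, k 1, k 2, k 3] : Fin 4 → Fin (d + 1)) = k := by
      funext i; fin_cases i <;> rfl
    simp only [h2, Pi.zero_apply] at h1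
    rw [h1, zero_mul]
  · intro a y
    rw [hev, ← (boxEquiv (Fin (d + 1))).sum_comp, Fintype.sum_prod_type]
    unfold ev4
    apply Finset.sum_congr rfl; intro i _
    rw [Fintype.sum_prod_type]
    apply Finset.sum_congr rfl; intro j _
    rw [Fintype.sum_prod_type]
    apply Finset.sum_congr rfl; intro k _
    apply Finset.sum_congr rfl; intro l _
    simp only [boxEquiv, Equiv.coe_fn_mk, Fin.prod_univ_four, uv]
    simp
    ring

lemma continuous_dd {α : Type*} [TopologicalSpace α] {f g : α → Pl} (hf : Continuous f)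
    (hg : Continuous g) : Continuous (fun x => dd (f x) (g x)) := by
  unfold dd
  fun_prop

lemma continuous_tau (X : Fin 4 → Pl) (j : Fin 4) : Continuous (fun u => tau X u j) := by
  have ha : Continuous aa := by unfold aa; fun_prop
  have hy : Continuous yy := by unfold yy; fun_prop
  unfold tau pr
  exact ((continuous_dd ha hy).add (continuous_dd ha continuous_const)).add
    (continuous_dd hy continuous_const)

lemma continuous_GG {N : ℕ} (X : Fin 4 → Pl) (r : (Fin 4 → Fin (N + 1)) → ℝ) :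
    Continuous (GG X r) := by
  unfold GG
  apply continuous_finset_sum; intro k _
  apply continuous_const.mul
  apply continuous_finset_prod; intro j _
  exact (continuous_tau X j).pow _

/-- zeros of a polynomial in the perimeters lie on an algebraic hypersurface of bounded degree -/
lemma exists_hyp (hD : DENS) (hE : ELIM) (hJ : JAC2) (N : ℕ) :
    ∃ L : ℕ, ∀ (X : Fin 4 → Pl), Function.Injective X → ∀ (r : (Fin 4 → Fin (N + 1)) → ℝ), r ≠ 0 →
      ∃ h : (Fin 4 → Fin (L + 1)) → ℝ, h ≠ 0 ∧ ∀ u ∈ UU X, GG X r u = 0 →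
        ∑ α, h α * ∏ i, u i ^ (α i : ℕ) = 0 := by
  classical
  obtain ⟨L, D, hLD⟩ := hE N
  refine ⟨L, fun X hX r hr => ?_⟩
  obtain ⟨c, hc, hrel⟩ := hLD X r
  have hne : ∃ k, c k ≠ 0 := by
    by_contra hcon
    push Not at hcon
    exact hc (funext hcon)
  -- minimal index
  obtain ⟨k0, hk0, hmin⟩ : ∃ k0, c k0 ≠ 0 ∧ ∀ k, k < k0 → c k = 0 := by
    obtain ⟨k0, hk0, hmin⟩ := exists_minimal_of_wellFoundedLT (fun k => c k ≠ 0) hne
    refine ⟨k0, hk0, fun k hk => ?_⟩
    by_contra h
    exact absurd (hmin h hk.le) (not_le.2 hk)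
  refine ⟨c k0, hk0, fun u hu hGu => ?_⟩
  have hdens := hD X N r (hJ X hX N r hr) u hu
  -- the continuous function
  set Cf : Fin (D + 1) → (Fin 4 → ℝ) → ℝ := fun k v => ∑ α, c k α * ∏ i, v i ^ (α i : ℕ) with hCf
  set Ψ : (Fin 4 → ℝ) → ℝ := fun v => ∑ k, if k0 ≤ k then Cf k v * GG X r v ^ ((k : ℕ) - (k0 : ℕ)) else 0
    with hΨ
  have hΨc : Continuous Ψ := by
    rw [hΨ]
    apply continuous_finset_sum; intro k _
    by_cases hk : k0 ≤ k
    · simp only [if_pos hk]
      apply Continuous.mul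
      · rw [hCf]
        apply continuous_finset_sum; intro α _
        apply continuous_const.mul
        apply continuous_finset_prod; intro i _
        exact (continuous_apply i).pow _
      · exact (continuous_GG X r).pow _
    · simp only [if_neg hk]; exact continuous_const
  have hΨ0 : ∀ v ∈ {v | v ∈ UU X ∧ GG X r v ≠ 0}, Ψ v = 0 := by
    rintro v ⟨_, hv⟩
    have h1 := hrel v
    have h2 : ∑ k, Cf k v * GG X r v ^ (k : ℕ) = GG X r v ^ (k0 : ℕ) * Ψ v := by
      rw [hΨ, Finset.mul_sum]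
      apply Finset.sum_congr rfl; intro k _
      by_cases hk : k0 ≤ k
      · rw [if_pos hk]
        have : (k : ℕ) = (k0 : ℕ) + ((k : ℕ) - (k0 : ℕ)) := by
          have : (k0 : ℕ) ≤ (k : ℕ) := hk
          omega
        calc Cf k v * GG X r v ^ (k : ℕ) = Cf k v * GG X r v ^ ((k0 : ℕ) + ((k : ℕ) - (k0 : ℕ))) := by
              rw [← this]
          _ = _ := by rw [pow_add]; ring
      · rw [if_neg hk, mul_zero]
        have : Cf k v = 0 := by
          rw [hCf]
          simp only [hmin k (not_le.1 hk)]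
          simp
        rw [this, zero_mul]
    have h3 : GG X r v ^ (k0 : ℕ) * Ψ v = 0 := by rw [← h2]; exact h1
    exact (mul_eq_zero.1 h3).resolve_left (pow_ne_zero _ hv)
  have hclosed : IsClosed {v | Ψ v = 0} := isClosed_eq hΨc continuous_const
  have hΨu : Ψ u = 0 := by
    have := closure_minimal (fun v hv => hΨ0 v hv) hclosed hdens
    exact this
  rw [hΨ] at hΨu
  simp only at hΨu
  rw [Finset.sum_eq_single k0] at hΨu
  · simpa using hΨu
  · intro k _ hk
    by_cases hk' : k0 ≤ k
    · rw [if_pos hk', hGu, zero_pow, mul_zero]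
      have h1 : (k0 : ℕ) ≤ (k : ℕ) := hk'
      have h2 : (k0 : ℕ) ≠ (k : ℕ) := fun h => hk (Fin.ext h.symm)
      omega
    · rw [if_neg hk']
  · intro h; exact absurd (Finset.mem_univ _) h

lemma totalDegree_mvp {N : ℕ} (r : (Fin 4 → Fin (N + 1)) → ℝ) : (mvp r).totalDegree ≤ 4 * N := by
  unfold mvp
  apply MvPolynomial.totalDegree_finsetSum_le
  intro k _
  refine (MvPolynomial.totalDegree_monomial_le _ _).trans ?_
  rw [Finsupp.sum_fintype _ _ (fun _ => rfl)]
  have : ∀ j, (k j : ℕ) ≤ N := fun j => Nat.lt_succ_iff.1 (k j).2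
  calc ∑ i, (Finsupp.equivFunOnFinite.symm (fun j => (k j : ℕ))) i = ∑ i, (k i : ℕ) := rfl
    _ ≤ ∑ _i : Fin 4, N := Finset.sum_le_sum fun i _ => this i
    _ = 4 * N := by simp

theorem fib_of (hD : DENS) (hE : ELIM) (hJ : JAC2) (hDim : DIM) : FIB := by
  classical
  obtain ⟨N, hN⟩ := hDim
  obtain ⟨L, hL⟩ := exists_hyp hD hE hJ N
  refine ⟨16 * L, N ^ 4, fun X hX => ?_⟩
  choose R hR0 hRrel using hN X
  have hl : ∀ z, ∃ l, (fun k => R z k l) ≠ 0 := by
    intro z
    by_contra hcon
    push Not at hcon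
    apply hR0 z
    funext k l
    exact congrFun (hcon l) k
  choose l hl using hl
  choose h hh0 hh using fun z => hL X hX (fun k => R z k (l z)) (hl z)
  set p : MvPolynomial (Fin 4) ℝ := ∏ z, mvp (h z) with hp
  have hp0 : p ≠ 0 := Finset.prod_ne_zero_iff.2 fun z _ => mvp_ne_zero _ (hh0 z)
  have hpd : p.totalDegree ≤ 16 * L := by
    refine (MvPolynomial.totalDegree_finset_prod _ _).trans ?_
    calc ∑ i, (mvp (h i)).totalDegree ≤ ∑ _i : Fin 4, 4 * L :=
          Finset.sum_le_sum fun i _ => totalDegree_mvp _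
      _ = 16 * L := by simp; ring
  obtain ⟨H, hH0, hH⟩ := exists_array (16 * L) p hpd hp0
  refine ⟨H, hH0, fun τ S hS => ?_⟩
  rcases S.eq_empty_or_nonempty with rfl | ⟨s0, hs0⟩
  · simp
  -- univariate polynomials
  set Q : Fin 4 → Polynomial ℝ := fun z =>
    ∑ m : Fin (N + 1), Polynomial.monomial (m : ℕ) (∑ k, R z k m * ∏ j, τ j ^ (k j : ℕ)) with hQ
  have huv : ∀ s ∈ S, uv s.1 s.2 ∈ UU X ∧ tau X (uv s.1 s.2) = τ := by
    intro s hs
    obtain ⟨h1, h2, _, h4⟩ := hS s hs
    refine ⟨?_, ?_⟩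
    · simp only [UU, Set.mem_setOf_eq, aa_uv, yy_uv]; exact ⟨h1, h2⟩
    · funext j; simp only [tau, aa_uv, yy_uv]; exact h4 j
  have hG : ∀ s ∈ S, ∀ z, GG X (fun k => R z k (l z)) (uv s.1 s.2) ≠ 0 := by
    intro s hs z hz
    obtain ⟨_, _, h3, _⟩ := hS s hs
    apply h3
    rw [hH, hp, map_prod]
    apply Finset.prod_eq_zero (Finset.mem_univ z)
    rw [eval_mvp]
    exact hh z _ (huv s hs).1 hz
  have hQcoeff : ∀ z (m : Fin (N + 1)), (Q z).coeff (m : ℕ) = ∑ k, R z k m * ∏ j, τ j ^ (k j : ℕ) := by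
    intro z m
    rw [hQ]
    simp only [Polynomial.finset_sum_coeff, Polynomial.coeff_monomial]
    rw [Finset.sum_eq_single m]
    · simp
    · intro b _ hb
      rw [if_neg]
      intro h; exact hb (Fin.ext h)
    · intro h; exact absurd (Finset.mem_univ m) h
  have hQ0 : ∀ z, Q z ≠ 0 := by
    intro z h0
    have h1 := hQcoeff z (l z)
    rw [h0, Polynomial.coeff_zero] at h1
    apply hG s0 hs0 z
    unfold GG
    rw [(huv s0 hs0).2]
    exact h1.symm
  have hQd : ∀ z, (Q z).natDegree ≤ N := by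
    intro z
    rw [hQ]
    apply Polynomial.natDegree_sum_le_of_forall_le
    intro m _
    exact (Polynomial.natDegree_monomial_le _).trans (Nat.lt_succ_iff.1 m.2)
  have hroot : ∀ s ∈ S, ∀ z, uv s.1 s.2 z ∈ (Q z).roots.toFinset := by
    intro s hs z
    rw [Multiset.mem_toFinset, Polynomial.mem_roots (hQ0 z), Polynomial.IsRoot, hQ]
    simp only [Polynomial.eval_finset_sum, Polynomial.eval_monomial]
    have h1 := hRrel z (uv s.1 s.2)
    rw [Finset.sum_comm] at h1
    rw [← h1, (huv s hs).2]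
    apply Finset.sum_congr rfl; intro m _
    rw [Finset.sum_mul]
  have hinj : Set.InjOn (fun s : Pl × Pl => uv s.1 s.2) S := by
    intro s _ s' _ h
    have h0 := congrFun h 0
    have h1 := congrFun h 1
    have h2 := congrFun h 2
    have h3 := congrFun h 3
    simp [uv] at h0 h1 h2 h3
    exact Prod.ext (Prod.ext h0 h1) (Prod.ext h2 h3)
  calc S.card = (S.image (fun s : Pl × Pl => uv s.1 s.2)).card := (Finset.card_image_of_injOn hinj).symm
    _ ≤ (Fintype.piFinset fun z => (Q z).roots.toFinset).card := by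
        apply Finset.card_le_card
        intro u hu
        rw [Finset.mem_image] at hu
        obtain ⟨s, hs, rfl⟩ := hu
        rw [Fintype.mem_piFinset]
        exact hroot s hs
    _ = ∏ z, ((Q z).roots.toFinset).card := Fintype.card_piFinset _
    _ ≤ ∏ _z : Fin 4, N := by
        apply Finset.prod_le_prod'
        intro z _
        exact (Multiset.toFinset_card_le _).trans ((Polynomial.card_roots' _).trans (hQd z))
    _ = N ^ 4 := by simp

end Pool.Agent.H59.Per
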