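import Pool.Agent.H59.Per.Alg

/-! Module MAIN of MP_588c6d_co: assembly of the lower bound. -/

set_option autoImplicit false

open Finset

namespace Pool.Agent.H59.Per

/-- rank in `T` -/
noncomputable def rk (T : Finset ℝ) (x : ℝ) : ℕ := (T.filter (fun θ => θ < x)).card

lemma rk_mono (T : Finset ℝ) {x y : ℝ} (h : x ≤ y) : rk T x ≤ rk T y := by
  apply Finset.card_le_card
  intro θ hθ
  rw [Finset.mem_filter] at hθ ⊢
  exact ⟨hθ.1, lt_of_lt_of_le hθ.2 h⟩

lemma rk_lt (T : Finset ℝ) {x y : ℝ} (hx : x ∈ T) (h : x < y) : rk T x < rk T y := by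
  apply Finset.card_lt_card
  rw [Finset.ssubset_iff_of_subset]
  · exact ⟨x, by rw [Finset.mem_filter]; exact ⟨hx, h⟩, by rw [Finset.mem_filter]; simp⟩
  · intro θ hθ
    rw [Finset.mem_filter] at hθ ⊢
    exact ⟨hθ.1, lt_trans hθ.2 h⟩

lemma rk_le_add_sepc (T : Finset ℝ) (x y : ℝ) : rk T y ≤ rk T x + sepc T x y := by
  classical
  unfold rk sepc
  rw [← Nat.add_comm]
  refine le_trans (Finset.card_le_card ?_) (Finset.card_union_le _ _)
  intro θ hθ
  rw [Finset.mem_filter] at hθ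
  rw [Finset.mem_union, Finset.mem_filter, Finset.mem_filter]
  by_cases h : θ < x
  · exact Or.inr ⟨hθ.1, h⟩
  · exact Or.inl ⟨hθ.1, Or.inl ⟨not_lt.1 h, hθ.2⟩⟩

lemma sepc_comm (T : Finset ℝ) (x y : ℝ) : sepc T x y = sepc T y x := by
  unfold sepc
  congr 1
  apply Finset.filter_congr
  intro θ _
  tauto

lemma near_count (T : Finset ℝ) (x : ℝ) (K : ℕ) :
    (T.filter (fun y => sepc T x y ≤ K)).card ≤ 2 * K + 1 := by
  classical
  have h : (T.filter (fun y => sepc T x y ≤ K)).card ≤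
      (Finset.Icc ((rk T x : ℤ) - K) ((rk T x : ℤ) + K)).card := by
    apply Finset.card_le_card_of_injOn (fun y => (rk T y : ℤ))
    · intro y hy
      rw [Finset.mem_coe, Finset.mem_filter] at hy
      have h1 := rk_le_add_sepc T x y
      have h2 := rk_le_add_sepc T y x
      rw [sepc_comm] at h2
      have h3 := hy.2
      rw [Finset.mem_coe, Finset.mem_Icc]
      change (rk T x : ℤ) - K ≤ (rk T y : ℤ) ∧ (rk T y : ℤ) ≤ (rk T x : ℤ) + K
      constructor <;> omega
    · intro y hy y' hy' he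
      rw [Finset.mem_coe, Finset.mem_filter] at hy hy'
      simp only [Nat.cast_inj] at he
      by_contra hne
      rcases lt_or_gt_of_ne hne with h | h
      · exact absurd he (rk_lt T hy.1 h).ne
      · exact absurd he (rk_lt T hy'.1 h).ne'
  refine h.trans (le_of_eq ?_)
  rw [Int.card_Icc]
  omega

/-- quadruples of nearby elements of `T` -/
lemma quad_count (T : Finset ℝ) (K : ℕ) (Q : Finset (Fin 4 → ℝ))
    (hQ : ∀ τ ∈ Q, (∀ j, τ j ∈ T) ∧ ∀ j, sepc T (τ 0) (τ j) ≤ K) :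
    Q.card ≤ T.card * (2 * K + 1) ^ 3 := by
  classical
  have hsub : Q ⊆ T.biUnion (fun x => Fintype.piFinset (fun j : Fin 4 =>
      if j = 0 then {x} else T.filter (fun y => sepc T x y ≤ K))) := by
    intro τ hτ
    obtain ⟨h1, h2⟩ := hQ τ hτ
    rw [Finset.mem_biUnion]
    refine ⟨τ 0, h1 0, ?_⟩
    rw [Fintype.mem_piFinset]
    intro j
    by_cases hj : j = 0
    · subst hj; simp
    · rw [if_neg hj, Finset.mem_filter]; exact ⟨h1 j, h2 j⟩
  refine (Finset.card_le_card hsub).trans (Finset.card_biUnion_le.trans ?_)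
  rw [← smul_eq_mul, ← Finset.sum_const]
  apply Finset.sum_le_sum
  intro x _
  rw [Fintype.card_piFinset, Fin.prod_univ_four]
  simp only [if_true, Finset.card_singleton, one_mul]
  have h := near_count T x K
  rw [if_neg (by decide : (1 : Fin 4) ≠ 0), if_neg (by decide : (2 : Fin 4) ≠ 0),
    if_neg (by decide : (3 : Fin 4) ≠ 0)]
  calc _ ≤ (2 * K + 1) * (2 * K + 1) * (2 * K + 1) := by gcongr
    _ = (2 * K + 1) ^ 3 := by ring

/-- fibre counting -/
lemma fibre_count {α β : Type*} [DecidableEq β] (S : Finset α) (f : α → β) (M : ℕ)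
    (h : ∀ b, ∀ S' ⊆ S, (∀ s ∈ S', f s = b) → S'.card ≤ M) : S.card ≤ M * (S.image f).card := by
  classical
  rw [Finset.card_eq_sum_card_image f S, mul_comm, ← smul_eq_mul, ← Finset.sum_const]
  apply Finset.sum_le_sum
  intro b _
  exact h b _ (Finset.filter_subset _ _) (fun s hs => (Finset.mem_filter.1 hs).2)

/-- the final numerical step -/
lemma numeric (C n t L : ℝ) (M : ℝ) (hC : 0 < C) (hn : 3 ≤ n) (hM : 1 ≤ M) (hL : 1 ≤ L)
    (ht : 1 ≤ t)
    (h : n ^ 2 / 2 ≤ M * (t * (2 * (16 * C * (L / Real.sqrt n) * t) + 1) ^ 3)) :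
    min (1 / (54 * M)) ((54 * M * (16 * C) ^ 3)⁻¹ ^ (1 / 4 : ℝ)) * n ^ (7 / 8 : ℝ) / L ^ (3 / 4 : ℝ) ≤ t := by
  have hn0 : 0 < n := by linarith
  have hs : 0 < Real.sqrt n := Real.sqrt_pos.2 hn0
  set K := 16 * C * (L / Real.sqrt n) * t with hK
  have hKpos : 0 < K := by positivity
  have hLp : 1 ≤ L ^ (3 / 4 : ℝ) := Real.one_le_rpow hL (by norm_num)
  by_cases hK1 : K < 1
  · -- small K
    have h1 : n ^ 2 / 2 ≤ M * (t * 27) := by
      refine h.trans ?_
      have : (2 * K + 1) ^ 3 ≤ 3 ^ 3 := pow_le_pow_left₀ (by positivity) (by linarith) 3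
      have h27 : (3 : ℝ) ^ 3 = 27 := by norm_num
      rw [h27] at this
      gcongr
    have h2 : n ^ (7 / 8 : ℝ) ≤ n ^ 2 := by
      rw [← Real.rpow_natCast]
      exact Real.rpow_le_rpow_of_exponent_le (by linarith) (by norm_num)
    have h3 : n ^ (7 / 8 : ℝ) / L ^ (3 / 4 : ℝ) ≤ n ^ 2 := by
      rw [div_le_iff₀ (by linarith)]
      nlinarith [sq_nonneg n]
    calc _ = min (1 / (54 * M)) ((54 * M * (16 * C) ^ 3)⁻¹ ^ (1 / 4 : ℝ)) *
          (n ^ (7 / 8 : ℝ) / L ^ (3 / 4 : ℝ)) := by ring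
      _ ≤ (1 / (54 * M)) * n ^ 2 := by
          apply mul_le_mul (min_le_left _ _) h3 (by positivity) (by positivity)
      _ ≤ t := by
          rw [div_mul_eq_mul_div, div_le_iff₀ (by positivity)]
          linarith
  · push Not at hK1
    have h1 : n ^ 2 / 2 ≤ M * (t * (3 * K) ^ 3) := by
      refine h.trans ?_
      have : (2 * K + 1) ^ 3 ≤ (3 * K) ^ 3 := pow_le_pow_left₀ (by positivity) (by linarith) 3
      gcongr
    have h2 : n ^ 2 * Real.sqrt n ^ 3 ≤ 54 * M * (16 * C) ^ 3 * L ^ 3 * t ^ 4 := by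
      have e : M * (t * (3 * K) ^ 3) = 27 * M * (16 * C) ^ 3 * L ^ 3 * t ^ 4 / Real.sqrt n ^ 3 := by
        rw [hK]; field_simp; ring
      rw [e] at h1
      rw [le_div_iff₀ (by positivity)] at h1
      linarith
    set A := (54 * M * (16 * C) ^ 3)⁻¹ ^ (1 / 4 : ℝ) * n ^ (7 / 8 : ℝ) / L ^ (3 / 4 : ℝ) with hA
    have hA0 : 0 ≤ A := by positivity
    have hA4 : A ^ 4 ≤ t ^ 4 := by
      have e1 : ((54 * M * (16 * C) ^ 3)⁻¹ ^ (1 / 4 : ℝ)) ^ 4 = (54 * M * (16 * C) ^ 3)⁻¹ := by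
        rw [← Real.rpow_natCast, ← Real.rpow_mul (by positivity)]; norm_num
      have e2 : (n ^ (7 / 8 : ℝ)) ^ 4 = n ^ 2 * Real.sqrt n ^ 3 := by
        rw [Real.sqrt_eq_rpow, ← Real.rpow_natCast, ← Real.rpow_natCast, ← Real.rpow_natCast,
          ← Real.rpow_mul hn0.le, ← Real.rpow_mul hn0.le, ← Real.rpow_add hn0]
        norm_num
      have e3 : (L ^ (3 / 4 : ℝ)) ^ 4 = L ^ 3 := by
        rw [← Real.rpow_natCast, ← Real.rpow_natCast, ← Real.rpow_mul (by linarith)]; norm_num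
      rw [hA, div_pow, mul_pow, e1, e2, e3, div_le_iff₀ (by positivity), inv_mul_le_iff₀ (by positivity)]
      calc _ ≤ _ := h2
        _ = _ := by ring
    have hAt : A ≤ t := le_of_pow_le_pow_left₀ (by norm_num) (by linarith) hA4
    refine le_trans ?_ hAt
    rw [hA]
    gcongr
    exact min_le_right _ _

lemma dd_comm (p q : Pl) : dd p q = dd q p := by
  unfold dd; congr 1; ring

lemma pr_mem {P : Finset Pl} {a y x : Pl} (ha : a ∈ P) (hy : y ∈ P) (hx : x ∈ P) (h1 : a ≠ y)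
    (h2 : a ≠ x) (h3 : y ≠ x) : pr a y x ∈ perims P := by
  classical
  unfold perims
  rw [Finset.mem_image]
  refine ⟨(a, y, x), ?_, rfl⟩
  rw [Finset.mem_filter, Finset.mem_product, Finset.mem_product]
  exact ⟨⟨ha, hy, hx⟩, h1, h2, h3⟩

lemma one_le_perims {P : Finset Pl} (hP : 3 ≤ P.card) : 1 ≤ (perims P).card := by
  obtain ⟨a, b, c, ha, hb, hc, hab, hac, hbc⟩ := Finset.two_lt_card_iff.1 (show 2 < P.card by omega)
  exact Finset.card_pos.2 ⟨_, pr_mem ha hb hc hab hac hbc⟩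

theorem main_of (hC : CLOSE) (hF : FIB) (hS : SZ) (hR : RICH) : MAIN := by
  classical
  obtain ⟨C, hC0, n1, hC⟩ := hC
  obtain ⟨d, M, hF⟩ := hF
  obtain ⟨cR, hcR, n2, hR⟩ := hR d
  set n0 : ℕ := max (max n1 n2) 144 with hn0
  set c1 : ℝ := min (1 / (54 * (2 * ((M : ℝ) + 1))))
    ((54 * (2 * ((M : ℝ) + 1)) * (16 * C) ^ 3)⁻¹ ^ (1 / 4 : ℝ)) with hc1
  have hc1pos : 0 < c1 := by
    rw [hc1]; apply lt_min <;> positivity
  refine ⟨min (1 / (n0 : ℝ)) (min cR c1), ?_, fun P hP => ?_⟩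
  · apply lt_min
    · have : 0 < n0 := by omega
      positivity
    · exact lt_min hcR hc1pos
  set n : ℝ := (P.card : ℝ) with hn
  have hn3 : (3 : ℝ) ≤ n := by rw [hn]; exact_mod_cast hP
  have hL1 : 1 ≤ Real.log n := by
    rw [Real.le_log_iff_exp_le (by linarith)]
    have := Real.exp_one_lt_d9
    linarith
  have hLp : 1 ≤ Real.log n ^ (3 / 4 : ℝ) := Real.one_le_rpow hL1 (by norm_num)
  have ht1 : (1 : ℝ) ≤ (perims P).card := by exact_mod_cast one_le_perims hP
  have hn78 : n ^ (7 / 8 : ℝ) ≤ n := by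
    calc n ^ (7 / 8 : ℝ) ≤ n ^ (1 : ℝ) := Real.rpow_le_rpow_of_exponent_le (by linarith) (by norm_num)
      _ = n := Real.rpow_one n
  have hq : n ^ (7 / 8 : ℝ) / Real.log n ^ (3 / 4 : ℝ) ≤ n := by
    rw [div_le_iff₀ (by linarith)]
    nlinarith
  have hq0 : 0 ≤ n ^ (7 / 8 : ℝ) / Real.log n ^ (3 / 4 : ℝ) := by positivity
  by_cases hsmall : P.card < n0
  · have h1 : n ≤ n0 := by rw [hn]; exact_mod_cast hsmall.le
    have hn0pos : (0 : ℝ) < n0 := by linarith
    calc _ = min (1 / (n0 : ℝ)) (min cR c1) * (n ^ (7 / 8 : ℝ) / Real.log n ^ (3 / 4 : ℝ)) := by ring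
      _ ≤ (1 / (n0 : ℝ)) * n0 := by
          apply mul_le_mul (min_le_left _ _) (hq.trans h1) hq0 (by positivity)
      _ = 1 := by field_simp
      _ ≤ _ := ht1
  push Not at hsmall
  have hn1 : n1 ≤ P.card := by omega
  have hn2 : n2 ≤ P.card := by omega
  have hn144 : 144 ≤ P.card := by omega
  obtain ⟨X, hXinj, hXP, hXsum⟩ := hC P (perims P) hn1
  obtain ⟨H, hH0, hHfib⟩ := hF X hXinj
  set T := perims P with hT
  by_cases hbad : (P.card : ℝ) ^ 2 ≤ 4 * ((P ×ˢ P).filter (fun s => ev4 H s.1 s.2 = 0)).card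
  · obtain ⟨h, hh0, hh⟩ := hS d P H hH0 hbad
    have h1 := hR P h hh0 hn2 hh
    calc _ = min (1 / (n0 : ℝ)) (min cR c1) * (n ^ (7 / 8 : ℝ) / Real.log n ^ (3 / 4 : ℝ)) := by ring
      _ ≤ cR * n := by
          apply mul_le_mul _ hq hq0 hcR.le
          exact (min_le_right _ _).trans (min_le_left _ _)
      _ ≤ _ := h1
  push Not at hbad
  -- the main case
  set K : ℝ := 16 * C * (Real.log n / Real.sqrt n) * T.card with hK
  have hsn : 0 < Real.sqrt n := Real.sqrt_pos.2 (by linarith)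
  have hKpos : 0 < K := by
    have : 0 < Real.log n := by linarith
    have : (0 : ℝ) < T.card := by linarith
    positivity
  set Sj : Fin 4 → Pl × Pl → ℝ := fun j s => (sepc T (pr s.1 s.2 (X 0)) (pr s.1 s.2 (X j)) : ℝ) with hSj
  -- bad pairs for closeness
  have hmark : ∀ j, (((P ×ˢ P).filter (fun s => K < Sj j s)).card : ℝ) ≤ n ^ 2 / 16 := by
    intro j
    have h1 := hXsum j
    rw [← Finset.sum_product'] at h1
    have h2 : (((P ×ˢ P).filter (fun s => K < Sj j s)).card : ℝ) * K ≤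
        ∑ s ∈ P ×ˢ P, Sj j s := by
      rw [← nsmul_eq_mul, ← Finset.sum_const]
      refine (Finset.sum_le_sum (fun s hs => (Finset.mem_filter.1 hs).2.le)).trans ?_
      apply Finset.sum_le_sum_of_subset_of_nonneg (Finset.filter_subset _ _)
      intro s _ _
      exact Nat.cast_nonneg _
    have h3 : (((P ×ˢ P).filter (fun s => K < Sj j s)).card : ℝ) * K ≤ (n ^ 2 / 16) * K := by
      refine h2.trans (h1.trans (le_of_eq ?_))
      rw [hK, ← hn]; ring
    exact le_of_mul_le_mul_right h3 hKpos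
  -- the set of good pairs
  set G := (P ×ˢ P).filter (fun s => s.1 ≠ s.2 ∧ (∀ j, s.1 ≠ X j ∧ s.2 ≠ X j) ∧ ev4 H s.1 s.2 ≠ 0 ∧
    ∀ j, Sj j s ≤ K) with hG
  have hsub : P ×ˢ P ⊆ G ∪ ((P ×ˢ P).filter (fun s => ev4 H s.1 s.2 = 0) ∪
      (P.image (fun p => (p, p)) ∪ ((Finset.univ.biUnion fun j : Fin 4 =>
        (P ×ˢ P).filter (fun s => K < Sj j s)) ∪
      ((Finset.univ.image X) ×ˢ P ∪ P ×ˢ (Finset.univ.image X))))) := by
    intro s hs
    have hs' := Finset.mem_product.1 hs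
    simp only [Finset.mem_union]
    by_cases h1 : ev4 H s.1 s.2 = 0
    · exact Or.inr (Or.inl (Finset.mem_filter.2 ⟨hs, h1⟩))
    by_cases h2 : s.1 = s.2
    · right; right; left
      rw [Finset.mem_image]; exact ⟨s.1, hs'.1, Prod.ext rfl h2⟩
    by_cases h3 : ∃ j, K < Sj j s
    · obtain ⟨j, hj⟩ := h3
      right; right; right; left
      rw [Finset.mem_biUnion]; exact ⟨j, Finset.mem_univ _, Finset.mem_filter.2 ⟨hs, hj⟩⟩
    by_cases h4 : ∃ j, s.1 = X j
    · obtain ⟨j, hj⟩ := h4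
      right; right; right; right; left
      rw [Finset.mem_product]
      exact ⟨Finset.mem_image.2 ⟨j, Finset.mem_univ _, hj.symm⟩, hs'.2⟩
    by_cases h5 : ∃ j, s.2 = X j
    · obtain ⟨j, hj⟩ := h5
      right; right; right; right; right
      rw [Finset.mem_product]
      exact ⟨hs'.1, Finset.mem_image.2 ⟨j, Finset.mem_univ _, hj.symm⟩⟩
    push Not at h3 h4 h5
    left
    rw [hG, Finset.mem_filter]
    exact ⟨hs, h2, fun j => ⟨h4 j, h5 j⟩, h1, h3⟩
  have hXc : (Finset.univ.image X).card ≤ 4 := by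
    refine Finset.card_image_le.trans ?_
    simp
  have hGcard : n ^ 2 / 4 ≤ G.card := by
    have h1 := Finset.card_le_card hsub
    have h2 : ((P ×ˢ P).card : ℝ) ≤ G.card + (((P ×ˢ P).filter (fun s => ev4 H s.1 s.2 = 0)).card +
        ((P.image (fun p => (p, p))).card + (((Finset.univ.biUnion fun j : Fin 4 =>
        (P ×ˢ P).filter (fun s => K < Sj j s))).card +
        (((Finset.univ.image X) ×ˢ P).card + (P ×ˢ (Finset.univ.image X)).card)))) := by
      have h3 := h1.trans ((Finset.card_union_le _ _).trans (Nat.add_le_add_left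
        ((Finset.card_union_le _ _).trans (Nat.add_le_add_left
        ((Finset.card_union_le _ _).trans (Nat.add_le_add_left
        ((Finset.card_union_le _ _).trans (Nat.add_le_add_left
        (Finset.card_union_le _ _) _)) _)) _)) _))
      exact_mod_cast h3
    have h4 : ((Finset.univ.biUnion fun j : Fin 4 =>
        (P ×ˢ P).filter (fun s => K < Sj j s)).card : ℝ) ≤ 4 * (n ^ 2 / 16) := by
      have h5 : ((Finset.univ.biUnion fun j : Fin 4 =>
        (P ×ˢ P).filter (fun s => K < Sj j s)).card : ℝ) ≤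
          ∑ j : Fin 4, (((P ×ˢ P).filter (fun s => K < Sj j s)).card : ℝ) := by
        exact_mod_cast Finset.card_biUnion_le
      refine h5.trans ((Finset.sum_le_sum fun j _ => hmark j).trans (le_of_eq ?_))
      simp
    have h6 : ((P.image (fun p => (p, p))).card : ℝ) ≤ n := by
      rw [hn]; exact_mod_cast Finset.card_image_le
    have h7 : (((Finset.univ.image X) ×ˢ P).card : ℝ) ≤ 4 * n := by
      rw [Finset.card_product, hn]
      have : (Finset.univ.image X).card * P.card ≤ 4 * P.card := Nat.mul_le_mul_right _ hXc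
      exact_mod_cast this
    have h8 : ((P ×ˢ (Finset.univ.image X)).card : ℝ) ≤ 4 * n := by
      rw [Finset.card_product, hn]
      have : P.card * (Finset.univ.image X).card ≤ 4 * P.card := by
        rw [mul_comm]; exact Nat.mul_le_mul_right _ hXc
      exact_mod_cast this
    have h9 : ((P ×ˢ P).card : ℝ) = n ^ 2 := by
      rw [Finset.card_product, hn]; push_cast; ring
    have h10 : (144 : ℝ) ≤ n := by rw [hn]; exact_mod_cast hn144
    rw [← hn] at hbad
    rw [h9] at h2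
    nlinarith
  -- fibres
  have hfib : G.card ≤ M * (G.image (fun s => fun j => pr s.1 s.2 (X j))).card := by
    apply fibre_count
    intro τ S' hS' hτ
    apply hHfib τ S'
    intro s hs
    have h1 := (Finset.mem_filter.1 (hS' hs)).2
    exact ⟨h1.1, h1.2.1, h1.2.2.1, fun j => congrFun (hτ s hs) j⟩
  have hquad : (G.image (fun s => fun j => pr s.1 s.2 (X j))).card ≤
      T.card * (2 * ⌊K⌋₊ + 1) ^ 3 := by
    apply quad_count
    intro τ hτ
    obtain ⟨s, hs, rfl⟩ := Finset.mem_image.1 hτ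
    obtain ⟨h1, h2, h3, _, h5⟩ := Finset.mem_filter.1 hs
    have h1' := Finset.mem_product.1 h1
    refine ⟨fun j => pr_mem h1'.1 h1'.2 (hXP j) h2 (h3 j).1 (h3 j).2, fun j => ?_⟩
    exact Nat.le_floor (h5 j)
  have hfinal : n ^ 2 / 4 ≤ ((M : ℝ) + 1) * (T.card * (2 * K + 1) ^ 3) := by
    refine hGcard.trans ?_
    have h1 : (G.card : ℝ) ≤ M * (T.card * (2 * (⌊K⌋₊ : ℝ) + 1) ^ 3) := by
      exact_mod_cast hfib.trans (Nat.mul_le_mul_left _ hquad)
    refine h1.trans ?_
    have h2 : (⌊K⌋₊ : ℝ) ≤ K := Nat.floor_le hKpos.le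
    have h3 : (0 : ℝ) ≤ T.card := Nat.cast_nonneg _
    have h4 : (0 : ℝ) ≤ M := Nat.cast_nonneg _
    gcongr
    linarith
  have hnum := numeric C n T.card (Real.log n) (2 * ((M : ℝ) + 1)) hC0 hn3 (by
    have : (0 : ℝ) ≤ M := Nat.cast_nonneg _
    linarith) hL1 ht1 (by
      rw [← hK]
      calc n ^ 2 / 2 = 2 * (n ^ 2 / 4) := by ring
        _ ≤ 2 * (((M : ℝ) + 1) * (T.card * (2 * K + 1) ^ 3)) := by linarith
        _ = _ := by ring)
  rw [← hc1] at hnum
  refine le_trans ?_ hnum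
  gcongr
  exact (min_le_right _ _).trans (min_le_right _ _)

end Pool.Agent.H59.Per
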