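import Mathlib

/-! Squeezing argument for sets with many collinear points (MP_588c6d_co). -/

set_option autoImplicit false

open Finset

namespace Pool.Agent.H59.Line

/-- number of elements of `T` in `(x, y]` -/
noncomputable def cl (T : Finset ℝ) (x y : ℝ) : ℕ := (T.filter (fun θ => x < θ ∧ θ ≤ y)).card

lemma sum_cl (T : Finset ℝ) (r : ℕ) (lo hi : ℕ → ℝ)
    (hd : ∀ i < r, ∀ j < r, i ≠ j → hi i ≤ lo j ∨ hi j ≤ lo i) :
    ∑ i ∈ Finset.range r, cl T (lo i) (hi i) ≤ T.card := by
  classical
  unfold cl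
  rw [← Finset.card_biUnion]
  · apply Finset.card_le_card
    intro θ hθ
    rw [Finset.mem_biUnion] at hθ
    obtain ⟨i, _, h⟩ := hθ
    exact (Finset.mem_filter.1 h).1
  · intro i hi' j hj' hij
    rw [Function.onFun, Finset.disjoint_left]
    intro θ h1 h2
    rw [Finset.mem_filter] at h1 h2
    rcases hd i (Finset.mem_range.1 hi') j (Finset.mem_range.1 hj') hij with h | h
    · exact absurd (lt_of_le_of_lt h h2.2.1) (not_lt.2 h1.2.2)
    · exact absurd (lt_of_le_of_lt h h1.2.1) (not_lt.2 h2.2.2)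

lemma few_bad (T : Finset ℝ) (r K : ℕ) (lo hi : ℕ → ℝ)
    (hd : ∀ i < r, ∀ j < r, i ≠ j → hi i ≤ lo j ∨ hi j ≤ lo i) :
    ((Finset.range r).filter (fun i => K < cl T (lo i) (hi i))).card * (K + 1) ≤ T.card := by
  refine le_trans ?_ (sum_cl T r lo hi hd)
  rw [← smul_eq_mul, ← Finset.sum_const]
  refine (Finset.sum_le_sum (fun i hi' => ?_)).trans (Finset.sum_le_sum_of_subset
    (Finset.filter_subset _ _))
  exact (Finset.mem_filter.1 hi').2

lemma cl_lt (T : Finset ℝ) {x y z : ℝ} (hz : z ∈ T) (hxy : x ≤ y) (h : y < z) :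
    cl T x y < cl T x z := by
  apply Finset.card_lt_card
  rw [Finset.ssubset_iff_of_subset]
  · refine ⟨z, ?_, ?_⟩
    · rw [Finset.mem_filter]; exact ⟨hz, lt_of_le_of_lt hxy h, le_rfl⟩
    · rw [Finset.mem_filter]; intro hh; linarith [hh.2.2]
  · intro θ hθ
    rw [Finset.mem_filter] at hθ ⊢
    exact ⟨hθ.1, hθ.2.1, hθ.2.2.trans h.le⟩

lemma cl_self (T : Finset ℝ) (x : ℝ) : cl T x x = 0 := by
  unfold cl
  rw [Finset.card_eq_zero, Finset.filter_eq_empty_iff]
  intro θ _ h
  linarith [h.1, h.2]

/-- close pairs in `T` -/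
noncomputable def clp (T : Finset ℝ) (K : ℕ) : Finset (ℝ × ℝ) :=
  (T ×ˢ T).filter (fun p => p.1 < p.2 ∧ cl T p.1 p.2 ≤ K)

lemma card_clp (T : Finset ℝ) (K : ℕ) : (clp T K).card ≤ T.card * K := by
  classical
  have hsub : clp T K ⊆ T.biUnion (fun x =>
      ((T.filter (fun y => x < y ∧ cl T x y ≤ K)).image (fun y => (x, y)))) := by
    intro p hp
    unfold clp at hp
    rw [Finset.mem_filter, Finset.mem_product] at hp
    rw [Finset.mem_biUnion]
    refine ⟨p.1, hp.1.1, ?_⟩
    rw [Finset.mem_image]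
    exact ⟨p.2, Finset.mem_filter.2 ⟨hp.1.2, hp.2⟩, rfl⟩
  refine (Finset.card_le_card hsub).trans (Finset.card_biUnion_le.trans ?_)
  rw [← smul_eq_mul, ← Finset.sum_const]
  apply Finset.sum_le_sum
  intro x _
  refine Finset.card_image_le.trans ?_
  have h : (T.filter (fun y => x < y ∧ cl T x y ≤ K)).card ≤ (Finset.Icc 1 K).card := by
    apply Finset.card_le_card_of_injOn (fun y => cl T x y)
    · intro y hy
      rw [Finset.mem_coe, Finset.mem_filter] at hy
      rw [Finset.mem_coe, Finset.mem_Icc]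
      refine ⟨?_, hy.2.2⟩
      have := cl_lt T hy.1 (le_refl x) hy.2.1
      rw [cl_self] at this
      exact this
    · intro y hy y' hy' he
      rw [Finset.mem_coe, Finset.mem_filter] at hy hy'
      simp only at he
      by_contra hne
      rcases lt_or_gt_of_ne hne with h | h
      · exact absurd he (cl_lt T hy'.1 hy.2.1.le h).ne
      · exact absurd he (cl_lt T hy.1 hy'.2.1.le h).ne'
  simpa using h

/-- distance from `(0,h)` to `(x,0)` -/
noncomputable def gd (h x : ℝ) : ℝ := Real.sqrt (x ^ 2 + h ^ 2)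

lemma gd_sq (h x : ℝ) : gd h x ^ 2 = x ^ 2 + h ^ 2 := by
  unfold gd; rw [Real.sq_sqrt (by positivity)]

lemma gd_pos (h x : ℝ) (hh : 0 < h) : 0 < gd h x := by
  unfold gd; positivity

lemma gd_gt (h x : ℝ) (hh : 0 < h) : |x| < gd h x := by
  unfold gd
  rw [← Real.sqrt_sq_eq_abs]
  apply Real.sqrt_lt_sqrt (sq_nonneg x)
  have : 0 < h ^ 2 := by positivity
  linarith

/-- `v x = g x + x`, `u x = g x - x` -/
noncomputable def vv (h x : ℝ) : ℝ := gd h x + x
noncomputable def uu (h x : ℝ) : ℝ := gd h x - x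

lemma vv_pos (h x : ℝ) (hh : 0 < h) : 0 < vv h x := by
  have := gd_gt h x hh
  unfold vv
  linarith [neg_abs_le x]

lemma uu_pos (h x : ℝ) (hh : 0 < h) : 0 < uu h x := by
  have := gd_gt h x hh
  unfold uu
  linarith [le_abs_self x]

lemma uu_mul_vv (h x : ℝ) : uu h x * vv h x = h ^ 2 := by
  have := gd_sq h x
  unfold uu vv
  nlinarith

lemma vv_strictMono (h : ℝ) (hh : 0 < h) : StrictMono (vv h) := by
  intro x y hxy
  have h1 := gd_sq h x
  have h2 := gd_sq h y
  have h3 := gd_gt h x hh
  have h4 := gd_gt h y hh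
  have h5 := gd_pos h x hh
  have h6 := gd_pos h y hh
  have h7 : -x < gd h x := lt_of_le_of_lt (neg_le_abs x) h3
  have h8 : -y < gd h y := lt_of_le_of_lt (neg_le_abs y) h4
  unfold vv
  -- (g y - g x)(g y + g x) = (y-x)(y+x) > -(y-x)(g x + g y)
  have h9 : (gd h y - gd h x) * (gd h y + gd h x) = (y - x) * (y + x) := by nlinarith
  by_contra hcon
  push Not at hcon
  have h10 : gd h y - gd h x ≤ -(y - x) := by linarith
  have h11 : (gd h y - gd h x) * (gd h y + gd h x) ≤ -(y - x) * (gd h y + gd h x) :=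
    mul_le_mul_of_nonneg_right h10 (by linarith)
  nlinarith

lemma uu_strictAnti (h : ℝ) (hh : 0 < h) : StrictAnti (uu h) := by
  intro x y hxy
  have h1 := vv_strictMono h hh hxy
  have h2 := uu_mul_vv h x
  have h3 := uu_mul_vv h y
  have h4 := vv_pos h x hh
  have h5 := uu_pos h y hh
  have h6 := uu_pos h x hh
  by_contra hcon
  push Not at hcon
  nlinarith [mul_lt_mul_of_pos_left h1 h5, mul_le_mul_of_nonneg_right hcon h4.le]

/-- the pair of increments determines the place. -/
lemma incr_inj (h : ℝ) (hh : 0 < h) {x x' y y' : ℝ} (hx : x < x') (hy : y < y') (hxy : x < y)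
    (hxy' : x' < y') (h1 : vv h x' - vv h x = vv h y' - vv h y)
    (h2 : uu h x - uu h x' = uu h y - uu h y') : False := by
  have a := uu_mul_vv h x
  have a' := uu_mul_vv h x'
  have b := uu_mul_vv h y
  have b' := uu_mul_vv h y'
  have px := vv_pos h x hh
  have px' := vv_pos h x' hh
  have py := vv_pos h y hh
  have py' := vv_pos h y' hh
  have m1 := vv_strictMono h hh hx
  have m2 := vv_strictMono h hh hxy
  have m3 := vv_strictMono h hh hxy'
  -- (uu x - uu x') vv x vv x' = h^2 (vv x' - vv x)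
  have e1 : (uu h x - uu h x') * (vv h x * vv h x') = h ^ 2 * (vv h x' - vv h x) := by
    calc _ = (uu h x * vv h x) * vv h x' - (uu h x' * vv h x') * vv h x := by ring
      _ = _ := by rw [a, a']; ring
  have e2 : (uu h y - uu h y') * (vv h y * vv h y') = h ^ 2 * (vv h y' - vv h y) := by
    calc _ = (uu h y * vv h y) * vv h y' - (uu h y' * vv h y') * vv h y := by ring
      _ = _ := by rw [b, b']; ring
  rw [← h1, ← h2, ← e1] at e2
  have hd : 0 < uu h x - uu h x' := by
    have := uu_strictAnti h hh hx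
    linarith
  have e3 := mul_left_cancel₀ hd.ne' e2
  have : vv h x * vv h x' < vv h y * vv h y' := by
    apply mul_lt_mul'' m2 m3 px.le px'.le
  linarith

theorem squeeze (S : Finset ℝ) (h : ℝ) (hh : 0 < h) (T : Finset ℝ)
    (hT : ∀ x ∈ S, ∀ y ∈ S, x < y → uu h x + vv h y ∈ T) (r : ℕ) (hr : 3 * r + 1 ≤ S.card) :
    r ^ 5 ≤ 32 * T.card ^ 4 := by
  classical
  rcases Nat.eq_zero_or_pos r with rfl | hrpos
  · simp
  -- enumeration
  set k := S.card with hk
  set s0 := S.orderEmbOfFin hk.symm with hs0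
  set s : ℕ → ℝ := fun i => if hi : i < k then s0 ⟨i, hi⟩ else 0 with hs
  have hsmem : ∀ i < k, s i ∈ S := by
    intro i hi
    rw [hs]; simp only [dif_pos hi]
    exact Finset.orderEmbOfFin_mem S hk.symm _
  have hsmono : ∀ i j, i < j → j < k → s i < s j := by
    intro i j hij hj
    rw [hs]; simp only [dif_pos hj, dif_pos (lt_trans hij hj)]
    exact s0.strictMono hij
  have hsmono' : ∀ i j, i ≤ j → j < k → s i ≤ s j := by
    intro i j hij hj
    rcases hij.eq_or_lt with rfl | h
    · exact le_rfl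
    · exact (hsmono i j h hj).le
  set t := T.card with ht
  set K := 4 * t / r with hK
  have hKr : K * r ≤ 4 * t := Nat.div_mul_le_self _ _
  have hKr' : 4 * t < (K + 1) * r := by
    have := Nat.lt_div_mul_add (a := 4 * t) hrpos
    rw [← hK] at this
    linarith
  -- sums
  set F1 : ℕ → ℕ → ℝ := fun a i => uu h (s a) + vv h (s (r + i)) with hF1
  set F2 : ℕ → ℕ → ℝ := fun b i => uu h (s (r + i)) + vv h (s (2 * r + 1 + b)) with hF2
  have hF1T : ∀ a < r, ∀ i ≤ r, F1 a i ∈ T := by
    intro a ha i hi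
    exact hT _ (hsmem _ (by omega)) _ (hsmem _ (by omega)) (hsmono _ _ (by omega) (by omega))
  have hF2T : ∀ b < r, ∀ i ≤ r, F2 b i ∈ T := by
    intro b hb i hi
    exact hT _ (hsmem _ (by omega)) _ (hsmem _ (by omega)) (hsmono _ _ (by omega) (by omega))
  have hF1m : ∀ a < r, ∀ i j, i < j → j ≤ r → F1 a i < F1 a j := by
    intro a ha i j hij hj
    have := vv_strictMono h hh (hsmono (r + i) (r + j) (by omega) (by omega))
    simp only [hF1]; linarith
  have hF2m : ∀ b < r, ∀ i j, i < j → j ≤ r → F2 b j < F2 b i := by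
    intro b hb i j hij hj
    have := uu_strictAnti h hh (hsmono (r + i) (r + j) (by omega) (by omega))
    simp only [hF2]; linarith
  have hF1m' : ∀ a < r, ∀ i j, i ≤ j → j ≤ r → F1 a i ≤ F1 a j := by
    intro a ha i j hij hj
    rcases hij.eq_or_lt with rfl | h
    · exact le_rfl
    · exact (hF1m a ha i j h hj).le
  have hF2m' : ∀ b < r, ∀ i j, i ≤ j → j ≤ r → F2 b j ≤ F2 b i := by
    intro b hb i j hij hj
    rcases hij.eq_or_lt with rfl | h
    · exact le_rfl
    · exact (hF2m b hb i j h hj).le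
  -- bad indices
  have hbad1 : ∀ a < r, 4 * ((Finset.range r).filter
      (fun i => K < cl T (F1 a i) (F1 a (i + 1)))).card < r := by
    intro a ha
    have h1 := few_bad T r K (fun i => F1 a i) (fun i => F1 a (i + 1)) (by
      intro i hi j hj hij
      rcases lt_or_gt_of_ne hij with h | h
      · exact Or.inl (hF1m' a ha _ _ (by omega) (by omega))
      · exact Or.inr (hF1m' a ha _ _ (by omega) (by omega)))
    set B := ((Finset.range r).filter (fun i => K < cl T (F1 a i) (F1 a (i + 1)))).card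
    by_contra hcon
    push Not at hcon
    have h2 : r * (K + 1) ≤ 4 * (B * (K + 1)) := by
      calc r * (K + 1) ≤ 4 * B * (K + 1) := Nat.mul_le_mul_right _ hcon
        _ = _ := by ring
    have h3 : r * (K + 1) ≤ 4 * t := h2.trans (Nat.mul_le_mul_left _ h1)
    rw [mul_comm] at h3
    omega
  have hbad2 : ∀ b < r, 4 * ((Finset.range r).filter
      (fun i => K < cl T (F2 b (i + 1)) (F2 b i))).card < r := by
    intro b hb
    have h1 := few_bad T r K (fun i => F2 b (i + 1)) (fun i => F2 b i) (by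
      intro i hi j hj hij
      rcases lt_or_gt_of_ne hij with h | h
      · exact Or.inr (hF2m' b hb _ _ (by omega) (by omega))
      · exact Or.inl (hF2m' b hb _ _ (by omega) (by omega)))
    set B := ((Finset.range r).filter (fun i => K < cl T (F2 b (i + 1)) (F2 b i))).card
    by_contra hcon
    push Not at hcon
    have h2 : r * (K + 1) ≤ 4 * (B * (K + 1)) := by
      calc r * (K + 1) ≤ 4 * B * (K + 1) := Nat.mul_le_mul_right _ hcon
        _ = _ := by ring
    have h3 : r * (K + 1) ≤ 4 * t := h2.trans (Nat.mul_le_mul_left _ h1)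
    rw [mul_comm] at h3
    omega
  -- good triples
  set R := Finset.range r with hR
  set G := (R ×ˢ R ×ˢ R).filter (fun p => cl T (F1 p.1 p.2.2) (F1 p.1 (p.2.2 + 1)) ≤ K ∧
    cl T (F2 p.2.1 (p.2.2 + 1)) (F2 p.2.1 p.2.2) ≤ K) with hG
  have hGcard : r ^ 3 ≤ 2 * G.card := by
    have e : G.card = ∑ a ∈ R, ∑ b ∈ R, (R.filter (fun i => cl T (F1 a i) (F1 a (i + 1)) ≤ K ∧
        cl T (F2 b (i + 1)) (F2 b i) ≤ K)).card := by
      rw [hG, Finset.card_filter, Finset.sum_product]
      apply Finset.sum_congr rfl; intro a _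
      rw [Finset.sum_product]
      apply Finset.sum_congr rfl; intro b _
      rw [Finset.card_filter]
    have h1 : ∀ a ∈ R, ∀ b ∈ R, r ≤ 2 * (R.filter (fun i => cl T (F1 a i) (F1 a (i + 1)) ≤ K ∧
        cl T (F2 b (i + 1)) (F2 b i) ≤ K)).card := by
      intro a ha b hb
      have h2 := hbad1 a (Finset.mem_range.1 ha)
      have h3 := hbad2 b (Finset.mem_range.1 hb)
      have h4 : R ⊆ (R.filter (fun i => cl T (F1 a i) (F1 a (i + 1)) ≤ K ∧
          cl T (F2 b (i + 1)) (F2 b i) ≤ K)) ∪
          ((R.filter (fun i => K < cl T (F1 a i) (F1 a (i + 1)))) ∪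
          (R.filter (fun i => K < cl T (F2 b (i + 1)) (F2 b i)))) := by
        intro i hi
        simp only [Finset.mem_union, Finset.mem_filter]
        by_cases c1 : K < cl T (F1 a i) (F1 a (i + 1))
        · exact Or.inr (Or.inl ⟨hi, c1⟩)
        · by_cases c2 : K < cl T (F2 b (i + 1)) (F2 b i)
          · exact Or.inr (Or.inr ⟨hi, c2⟩)
          · exact Or.inl ⟨hi, not_lt.1 c1, not_lt.1 c2⟩
      have h5 := (Finset.card_le_card h4).trans ((Finset.card_union_le _ _).trans
        (Nat.add_le_add_left (Finset.card_union_le _ _) _))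
      rw [hR, Finset.card_range, ← hR] at h5
      omega
    rw [e, Finset.mul_sum]
    calc r ^ 3 = ∑ _a ∈ R, ∑ _b ∈ R, r := by
          rw [hR]; simp only [Finset.sum_const, Finset.card_range, smul_eq_mul]; ring
      _ ≤ ∑ a ∈ R, ∑ b ∈ R, 2 * (R.filter (fun i => cl T (F1 a i) (F1 a (i + 1)) ≤ K ∧
          cl T (F2 b (i + 1)) (F2 b i) ≤ K)).card :=
          Finset.sum_le_sum fun a ha => Finset.sum_le_sum fun b hb => h1 a ha b hb
      _ = _ := by
          apply Finset.sum_congr rfl; intro a _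
          rw [Finset.mul_sum]
  -- the injection
  have hGle : G.card ≤ (t * K) * (t * K) := by
    have h1 : G.card ≤ (clp T K ×ˢ clp T K).card := by
      apply Finset.card_le_card_of_injOn
        (fun p => ((F1 p.1 p.2.2, F1 p.1 (p.2.2 + 1)), (F2 p.2.1 (p.2.2 + 1), F2 p.2.1 p.2.2)))
      · intro p hp
        rw [Finset.mem_coe, hG, Finset.mem_filter, Finset.mem_product, Finset.mem_product] at hp
        obtain ⟨⟨ha, hb, hi⟩, c1, c2⟩ := hp
        rw [Finset.mem_range] at ha hb hi
        rw [Finset.mem_coe, Finset.mem_product]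
        unfold clp
        rw [Finset.mem_filter, Finset.mem_filter, Finset.mem_product, Finset.mem_product]
        exact ⟨⟨⟨hF1T _ ha _ (by omega), hF1T _ ha _ (by omega)⟩,
          hF1m _ ha _ _ (by omega) (by omega), c1⟩,
          ⟨hF2T _ hb _ (by omega), hF2T _ hb _ (by omega)⟩,
          hF2m _ hb _ _ (by omega) (by omega), c2⟩
      · rintro ⟨a, b, i⟩ hp ⟨a', b', i'⟩ hp' he
        rw [Finset.mem_coe, hG, Finset.mem_filter, Finset.mem_product, Finset.mem_product] at hp hp'
        obtain ⟨⟨ha, hb, hi⟩, -, -⟩ := hp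
        obtain ⟨⟨ha', hb', hi'⟩, -, -⟩ := hp'
        rw [Finset.mem_range] at ha hb hi ha' hb' hi'
        simp only [Prod.mk.injEq] at he ha hb hi ha' hb' hi'
        obtain ⟨⟨e1, e2⟩, e3, e4⟩ := he
        simp only [hF1, hF2] at e1 e2 e3 e4
        have d1 : vv h (s (r + (i + 1))) - vv h (s (r + i)) =
            vv h (s (r + (i' + 1))) - vv h (s (r + i')) := by linarith
        have d2 : uu h (s (r + i)) - uu h (s (r + (i + 1))) =
            uu h (s (r + i')) - uu h (s (r + (i' + 1))) := by linarith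
        have hii : i = i' := by
          by_contra hne
          rcases lt_or_gt_of_ne hne with hlt | hlt
          · exact incr_inj h hh (hsmono _ _ (by omega) (by omega)) (hsmono _ _ (by omega) (by omega))
              (hsmono _ _ (by omega) (by omega)) (hsmono _ _ (by omega) (by omega)) d1 d2
          · exact incr_inj h hh (hsmono _ _ (by omega) (by omega)) (hsmono _ _ (by omega) (by omega))
              (hsmono _ _ (by omega) (by omega)) (hsmono _ _ (by omega) (by omega)) d1.symm d2.symm
        subst hii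
        have ea : uu h (s a) = uu h (s a') := by linarith
        have eb : vv h (s (2 * r + 1 + b)) = vv h (s (2 * r + 1 + b')) := by linarith
        have ea' := (uu_strictAnti h hh).injective ea
        have eb' := (vv_strictMono h hh).injective eb
        have haa : a = a' := by
          by_contra hne
          rcases lt_or_gt_of_ne hne with hlt | hlt
          · exact absurd ea' (hsmono _ _ hlt (by omega)).ne
          · exact absurd ea' (hsmono _ _ hlt (by omega)).ne'
        have hbb : b = b' := by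
          by_contra hne
          rcases lt_or_gt_of_ne hne with hlt | hlt
          · exact absurd eb' (hsmono _ _ (by omega) (by omega)).ne
          · exact absurd eb' (hsmono _ _ (by omega) (by omega)).ne'
        rw [haa, hbb]
    refine h1.trans ?_
    rw [Finset.card_product]
    exact Nat.mul_le_mul (card_clp T K) (card_clp T K)
  calc r ^ 5 = r ^ 3 * (r * r) := by ring
    _ ≤ 2 * G.card * (r * r) := Nat.mul_le_mul_right _ hGcard
    _ ≤ 2 * ((t * K) * (t * K)) * (r * r) := by gcongr
    _ = 2 * (t * t) * ((K * r) * (K * r)) := by ring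
    _ ≤ 2 * (t * t) * ((4 * t) * (4 * t)) := by gcongr
    _ = 32 * t ^ 4 := by ring

end Pool.Agent.H59.Line
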