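import Pool.Agent.H59.Per.Transfer
import Pool.Agent.H59.Per.Dens
import Pool.Agent.H59.Per.Fib
import Pool.Agent.H63.Jac.Jac1
import Pool.Agent.H47P.Cell3
import Pool.Agent.H93.PerClose

set_option autoImplicit false

namespace Pool.Agent.H59.Per

theorem almost (hR : RICH) : ∃ c : ℝ, 0 < c ∧
    ∀ P : Finset (EuclideanSpace ℝ (Fin 2)), 3 ≤ P.card →
      c * (P.card : ℝ) ^ (7 / 8 : ℝ) / Real.log P.card ^ (3 / 4 : ℝ) ≤ (perimeters P).card :=
  transfer (main_of (close Pool.Agent.H47P.cell)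
    (fib_of dens elim (jac2_of Pool.Agent.H63.Jac.jac1) dim) sz hR)

end Pool.Agent.H59.Per
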