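import Pool.Agent.H59.Per.Main

/-! From coordinates to the Euclidean plane (MP_588c6d_co). -/

set_option autoImplicit false

open Finset

namespace Pool.Agent.H59.Per

/-- coordinates -/
def phi (p : EuclideanSpace ℝ (Fin 2)) : Pl := (p 0, p 1)

lemma phi_inj : Function.Injective phi := by
  intro p q h
  ext i
  fin_cases i
  · exact congrArg Prod.fst h
  · exact congrArg Prod.snd h

lemma dd_phi (p q : EuclideanSpace ℝ (Fin 2)) : dd (phi p) (phi q) = dist p q := by
  rw [EuclideanSpace.dist_eq, Fin.sum_univ_two]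
  unfold dd phi
  simp only [Real.dist_eq, sq_abs]

/-- the set of the perimeters of the three-element subsets of `P` -/
noncomputable def perimeters (P : Finset (EuclideanSpace ℝ (Fin 2))) : Finset ℝ :=
  ((P ×ˢ P ×ˢ P).filter (fun t => t.1 ≠ t.2.1 ∧ t.1 ≠ t.2.2 ∧ t.2.1 ≠ t.2.2)).image
    (fun t => dist t.1 t.2.1 + dist t.2.1 t.2.2 + dist t.2.2 t.1)

lemma perims_image (P : Finset (EuclideanSpace ℝ (Fin 2))) :
    perims (P.map ⟨phi, phi_inj⟩) ⊆ perimeters P := by
  classical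
  intro x hx
  unfold perims at hx
  rw [Finset.mem_image] at hx
  obtain ⟨⟨a, b, c⟩, ht, rfl⟩ := hx
  rw [Finset.mem_filter, Finset.mem_product, Finset.mem_product] at ht
  obtain ⟨⟨ha, hb, hc⟩, h1, h2, h3⟩ := ht
  simp only [Finset.mem_map, Function.Embedding.coeFn_mk] at ha hb hc
  obtain ⟨a, ha, rfl⟩ := ha
  obtain ⟨b, hb, rfl⟩ := hb
  obtain ⟨c, hc, rfl⟩ := hc
  unfold perimeters
  rw [Finset.mem_image]
  refine ⟨(a, b, c), ?_, ?_⟩
  · rw [Finset.mem_filter, Finset.mem_product, Finset.mem_product]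
    exact ⟨⟨ha, hb, hc⟩, fun h => h1 (congrArg phi h), fun h => h2 (congrArg phi h),
      fun h => h3 (congrArg phi h)⟩
  · simp only [pr, dd_phi]
    rw [dist_comm c a]; ring

theorem transfer (h : MAIN) : ∃ c : ℝ, 0 < c ∧
    ∀ P : Finset (EuclideanSpace ℝ (Fin 2)), 3 ≤ P.card →
      c * (P.card : ℝ) ^ (7 / 8 : ℝ) / Real.log P.card ^ (3 / 4 : ℝ) ≤ (perimeters P).card := by
  obtain ⟨c, hc, h⟩ := h
  refine ⟨c, hc, fun P hP => ?_⟩
  have h1 := h (P.map ⟨phi, phi_inj⟩) (by rw [Finset.card_map]; exact hP)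
  rw [Finset.card_map] at h1
  exact h1.trans (by exact_mod_cast Finset.card_le_card (perims_image P))

end Pool.Agent.H59.Per
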